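import Pool.Agent.H.MP_1b807b_an.L.Defs

/-! MP_1b807b_an, hull theorem, module BDiv: the divergence theorem for a body, one direction -/

set_option autoImplicit false

namespace Pool.Agent.RC

open MeasureTheory Metric Set Filter
open Pool.Agent.RG
open scoped RealInnerProductSpace Topology

namespace Body
variable (B : Body)

/-- the divergence theorem for a function times the constant vector `ev θ₀` -/
theorem div_dir (h0 : ∀ t, 0 < B.h t) {g : E 2 → ℝ} (hg : ContDiff ℝ 1 g) (θ₀ : ℝ) :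
    ∫ x in B.K, fderiv ℝ g x (ev θ₀) =
      ∫ φ in (0 : ℝ)..2 * Real.pi, g (B.y φ) * Real.cos (φ - θ₀) * B.ρ φ := by
  have hp := Real.pi_pos
  have hgc := hg.continuous
  have hdc : Continuous (fderiv ℝ g) := hg.continuous_fderiv one_ne_zero
  have hyc := B.continuous_y
  have hηc := B.continuous_spy (θ₀ + Real.pi / 2)
  have hρc := B.continuous_ρ
  have hhc := B.continuous_h
  have hgd : ∀ x, HasFDerivAt g (fderiv ℝ g x) x := fun x =>
    ((hg.differentiable one_ne_zero) x).hasFDerivAt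
  set η : ℝ → ℝ := fun θ => sp (B.y θ) (θ₀ + Real.pi / 2) with hη
  rw [B.gauge h0 (F := fun x => fderiv ℝ g x (ev θ₀)) (hdc.clm_apply continuous_const)]
  set G1 : ℝ → ℝ → ℝ := fun θ r => fderiv ℝ g (r • B.y θ) (ev θ₀) * (r * (B.h θ * B.ρ θ)) with hG1
  set G2 : ℝ → ℝ → ℝ := fun θ r =>
    (g (r • B.y θ) + r * fderiv ℝ g (r • B.y θ) (B.y θ)) * (B.ρ θ * Real.cos (θ - θ₀)) with hG2
  have k1 : Continuous fun z : ℝ × ℝ => fderiv ℝ g (z.2 • B.y z.1) (ev θ₀) :=
    (hdc.comp (by fun_prop)).clm_apply continuous_const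
  have k2 : Continuous fun z : ℝ × ℝ => fderiv ℝ g (z.2 • B.y z.1) (B.y z.1) :=
    (hdc.comp (by fun_prop)).clm_apply (by fun_prop)
  have k3 : Continuous fun z : ℝ × ℝ => g (z.2 • B.y z.1) := hgc.comp (by fun_prop)
  have c1 : Continuous (Function.uncurry G1) := by
    simp only [hG1, Function.uncurry_def]
    exact k1.mul (by fun_prop)
  have c2 : Continuous (Function.uncurry G2) := by
    simp only [hG2, Function.uncurry_def]
    exact (k3.add (continuous_snd.mul k2)).mul (by fun_prop)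
  have i1 : IntegrableOn (Function.uncurry G1) (uIoc (0 : ℝ) (2 * Real.pi) ×ˢ uIoc (0 : ℝ) 1) :=
    (c1.continuousOn.integrableOn_compact (isCompact_uIcc.prod isCompact_uIcc)).mono_set
      (prod_mono uIoc_subset_uIcc uIoc_subset_uIcc)
  have i2 : IntegrableOn (Function.uncurry G2) (uIoc (0 : ℝ) (2 * Real.pi) ×ˢ uIoc (0 : ℝ) 1) :=
    (c2.continuousOn.integrableOn_compact (isCompact_uIcc.prod isCompact_uIcc)).mono_set
      (prod_mono uIoc_subset_uIcc uIoc_subset_uIcc)
  have s1 : ∫ θ in (0 : ℝ)..2 * Real.pi, ∫ r in (0 : ℝ)..1,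
      fderiv ℝ g (r • B.y θ) (ev θ₀) * (r * (B.h θ * B.ρ θ)) =
      ∫ r in (0 : ℝ)..1, ∫ θ in (0 : ℝ)..2 * Real.pi, G1 θ r := by
    rw [← intervalIntegral_intervalIntegral_swap i1]
  have s2 : ∀ r : ℝ, ∫ θ in (0 : ℝ)..2 * Real.pi, G1 θ r =
      ∫ θ in (0 : ℝ)..2 * Real.pi, G2 θ r := by
    intro r
    have hd : ∀ θ, HasDerivAt (fun θ => g (r • B.y θ) * η θ)
        (fderiv ℝ g (r • B.y θ) (r • (B.ρ θ • ev' θ)) * η θ +
          g (r • B.y θ) * (B.ρ θ * Real.cos (θ - θ₀))) θ := by
      intro θ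
      exact ((hgd (r • B.y θ)).comp_hasDerivAt θ ((B.hasDerivAt_y θ).const_smul r)).mul
        (B.hasDerivAt_eta θ₀ θ)
    have hev' := continuous_ev'
    have hc : Continuous fun θ => fderiv ℝ g (r • B.y θ) (r • (B.ρ θ • ev' θ)) * η θ +
          g (r • B.y θ) * (B.ρ θ * Real.cos (θ - θ₀)) := by
      have k4 : Continuous fun θ => fderiv ℝ g (r • B.y θ) (r • (B.ρ θ • ev' θ)) :=
        (hdc.comp (by fun_prop)).clm_apply (by fun_prop)
      have k5 : Continuous fun θ => g (r • B.y θ) := hgc.comp (by fun_prop)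
      exact (k4.mul hηc).add (k5.mul (by fun_prop))
    have h1 := intervalIntegral.integral_eq_sub_of_hasDerivAt (a := 0) (b := 2 * Real.pi)
      (fun θ _ => hd θ) (hc.intervalIntegrable _ _)
    have e := B.per_y 0
    rw [zero_add] at e
    have e3 : g (r • B.y (2 * Real.pi)) * η (2 * Real.pi) - g (r • B.y 0) * η 0 = 0 := by
      simp only [hη, e, sub_self]
    rw [e3] at h1
    have c3 : Continuous fun θ => G1 θ r := c1.comp (continuous_id.prodMk continuous_const)
    have c4 : Continuous fun θ => G2 θ r := c2.comp (continuous_id.prodMk continuous_const)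
    have h2 : ∫ θ in (0 : ℝ)..2 * Real.pi, (G2 θ r - G1 θ r) = 0 := by
      refine Eq.trans (intervalIntegral.integral_congr (fun θ _ => ?_)) h1
      simp only [hG1, hG2]
      -- `h e = cos y - η ev'`
      have hdec : B.h θ • ev θ₀ = Real.cos (θ - θ₀) • B.y θ - η θ • ev' θ := by
        have hη' : η θ = B.h θ * Real.sin (θ - θ₀) + B.p θ * Real.cos (θ - θ₀) := by
          simp only [hη]
          rw [sp_rotate (B.y θ) (θ₀ + Real.pi / 2) θ, B.sp_y, B.sp_y_quarter,
            show θ₀ + Real.pi / 2 - θ = Real.pi / 2 - (θ - θ₀) by ring, Real.cos_pi_div_two_sub,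
            Real.sin_pi_div_two_sub]
        have he : ev θ₀ = Real.cos (θ - θ₀) • ev θ - Real.sin (θ - θ₀) • ev' θ := by
          conv_lhs => rw [decomp (ev θ₀) θ]
          rw [sp_ev, sp_ev, show θ₀ - θ = -(θ - θ₀) by ring, Real.cos_neg,
            show θ₀ - (θ + Real.pi / 2) = -((θ - θ₀) + Real.pi / 2) by ring, Real.cos_neg,
            Real.cos_add_pi_div_two, neg_smul]
          rfl
        rw [hη', he, Body.y]
        module
      have h3 : B.h θ * fderiv ℝ g (r • B.y θ) (ev θ₀) =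
          Real.cos (θ - θ₀) * fderiv ℝ g (r • B.y θ) (B.y θ) -
            η θ * fderiv ℝ g (r • B.y θ) (ev' θ) := by
        have := congrArg (fderiv ℝ g (r • B.y θ)) hdec
        simpa [map_sub, map_smul] using this
      rw [map_smul, map_smul, smul_eq_mul, smul_eq_mul]
      linear_combination (-(r * B.ρ θ)) * h3
    rw [intervalIntegral.integral_sub (c4.intervalIntegrable _ _)
      (c3.intervalIntegrable _ _)] at h2
    linarith
  have s3 : ∫ r in (0 : ℝ)..1, ∫ θ in (0 : ℝ)..2 * Real.pi, G2 θ r =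
      ∫ θ in (0 : ℝ)..2 * Real.pi, ∫ r in (0 : ℝ)..1, G2 θ r :=
    (intervalIntegral_intervalIntegral_swap i2).symm
  rw [s1]
  simp only [s2]
  rw [s3]
  refine intervalIntegral.integral_congr (fun θ _ => ?_)
  have hd : ∀ r : ℝ, HasDerivAt (fun r : ℝ => r * g (r • B.y θ))
      (g (r • B.y θ) + r * fderiv ℝ g (r • B.y θ) (B.y θ)) r := by
    intro r
    have h1 : HasDerivAt (fun r : ℝ => r • B.y θ) (B.y θ) r := by
      simpa using (hasDerivAt_id r).smul_const (B.y θ)
    have h2 : HasDerivAt (fun r : ℝ => g (r • B.y θ)) (fderiv ℝ g (r • B.y θ) (B.y θ)) r :=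
      (hgd (r • B.y θ)).comp_hasDerivAt r h1
    have h3 : HasDerivAt (fun r : ℝ => r * g (r • B.y θ))
        (1 * g (r • B.y θ) + r * fderiv ℝ g (r • B.y θ) (B.y θ)) r := (hasDerivAt_id r).mul h2
    refine h3.congr_deriv ?_
    ring
  have hc : Continuous fun r : ℝ => g (r • B.y θ) + r * fderiv ℝ g (r • B.y θ) (B.y θ) := by
    have k4 : Continuous fun r : ℝ => fderiv ℝ g (r • B.y θ) (B.y θ) :=
      (hdc.comp (by fun_prop)).clm_apply continuous_const
    have k5 : Continuous fun r : ℝ => g (r • B.y θ) := hgc.comp (by fun_prop)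
    exact k5.add (continuous_id.mul k4)
  have h1 := intervalIntegral.integral_eq_sub_of_hasDerivAt (a := 0) (b := 1)
    (fun r _ => hd r) (hc.intervalIntegrable _ _)
  simp only [one_mul, zero_mul, sub_zero, one_smul] at h1
  simp only [hG2]
  rw [intervalIntegral.integral_mul_const, h1]
  ring

/-- the divergence theorem on a body -/
theorem div_field (h0 : ∀ t, 0 < B.h t) {X : E 2 → E 2} (hX : ContDiff ℝ 1 X) :
    ∫ x in B.K, divg X x = ∫ φ in (0 : ℝ)..2 * Real.pi, ⟪X (B.y φ), ev φ⟫ * B.ρ φ := by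
  have hp := Real.pi_pos
  have hXi : ∀ i : Fin 2, ContDiff ℝ 1 fun x => X x i := fun i => by
    exact (contDiff_euclidean.1 hX) i
  have hd : ∀ x, HasFDerivAt X (fderiv ℝ X x) x := fun x =>
    ((hX.differentiable one_ne_zero) x).hasFDerivAt
  have hdi : ∀ (i : Fin 2) x, fderiv ℝ (fun x => X x i) x =
      (EuclideanSpace.proj i : E 2 →L[ℝ] ℝ).comp (fderiv ℝ X x) := by
    intro i x
    exact ((EuclideanSpace.proj i : E 2 →L[ℝ] ℝ).hasFDerivAt.comp x (hd x)).fderiv
  have e0 : (EuclideanSpace.single (0 : Fin 2) (1 : ℝ) : E 2) = ev 0 := by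
    ext j; fin_cases j <;> simp [ev]
  have e1 : (EuclideanSpace.single (1 : Fin 2) (1 : ℝ) : E 2) = ev (Real.pi / 2) := by
    ext j; fin_cases j <;> simp [ev]
  have h1 : ∀ x, divg X x = fderiv ℝ (fun x => X x 0) x (ev 0) +
      fderiv ℝ (fun x => X x 1) x (ev (Real.pi / 2)) := by
    intro x
    rw [divg, tr, Fin.sum_univ_two, hdi 0 x, hdi 1 x, e0, e1]
    rfl
  have hK := B.isCompact_K
  have hi : ∀ (i : Fin 2) (v : E 2), IntegrableOn (fun x => fderiv ℝ (fun x => X x i) x v) B.K :=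
    fun i v => (((hXi i).continuous_fderiv one_ne_zero).clm_apply
      continuous_const).continuousOn.integrableOn_compact hK
  simp only [h1]
  rw [integral_add (hi 0 _) (hi 1 _), B.div_dir h0 (hXi 0), B.div_dir h0 (hXi 1),
    ← intervalIntegral.integral_add]
  · refine intervalIntegral.integral_congr (fun φ _ => ?_)
    have : ⟪X (B.y φ), ev φ⟫ = X (B.y φ) 0 * Real.cos φ + X (B.y φ) 1 * Real.sin φ := by
      rw [real_inner_comm]
      simp [PiLp.inner_apply, Fin.sum_univ_two, ev]
    simp only [this, sub_zero, Real.cos_sub_pi_div_two]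
    ring
  · have := B.continuous_y
    have := B.continuous_ρ
    have := (hXi 0).continuous
    refine Continuous.intervalIntegrable ?_ _ _
    exact ((this.comp (by fun_prop)).mul (by fun_prop)).mul (by fun_prop)
  · have := B.continuous_y
    have := B.continuous_ρ
    have := (hXi 1).continuous
    refine Continuous.intervalIntegrable ?_ _ _
    exact ((this.comp (by fun_prop)).mul (by fun_prop)).mul (by fun_prop)

end Body

end Pool.Agent.RC
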