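import Pool.Agent.H.MP_1b807b_an.L.Ener

/-! MP_1b807b_an, hull theorem, module Core: from the energy on the body to the Robin eigenvalue -/

set_option autoImplicit false

namespace Pool.Agent.RC

open MeasureTheory Metric Set
open Pool.Agent.RG
open scoped RealInnerProductSpace

private theorem co_zero (D : Domain 2) {u : E 2 → ℝ} (hu : ContDiff ℝ 1 u)
    (hi : IntegrableOn (fun x => u x ^ 2) D.carrier)
    (hA : ∫ x in D.carrier, u x ^ 2 = 0) :
    (∫ x in D.carrier, ‖fderiv ℝ u x‖ ^ 2) = 0 ∧ (∫ x, u x ^ 2 ∂D.surface) = 0 := by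
  have hcu := hu.continuous
  have hmD : MeasurableSet D.carrier := D.isOpen.measurableSet
  have h1 : (fun x => u x ^ 2) =ᵐ[volume.restrict D.carrier] 0 :=
    (integral_eq_zero_iff_of_nonneg (fun x => sq_nonneg _) hi).1 hA
  have h2 : EqOn (fun x => u x ^ 2) (fun _ => (0 : ℝ)) D.carrier :=
    Measure.eqOn_open_of_ae_eq h1 D.isOpen (hcu.pow 2).continuousOn continuousOn_const
  have h3 : EqOn u (fun _ => (0 : ℝ)) D.carrier := by
    intro x hx
    have h := h2 hx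
    simpa using h
  constructor
  · have h4 : ∀ x ∈ D.carrier, ‖fderiv ℝ u x‖ ^ 2 = 0 := by
      intro x hx
      have h5 : u =ᶠ[nhds x] fun _ => (0 : ℝ) := by
        filter_upwards [D.isOpen.mem_nhds hx] with y hy
        exact h3 hy
      rw [h5.fderiv_eq]
      simp
    rw [setIntegral_congr_fun hmD (g := fun _ => (0 : ℝ)) h4]
    simp
  · have h6 : EqOn u (fun _ => (0 : ℝ)) (closure D.carrier) := h3.closure hcu continuous_const
    have hsupp : ∀ᵐ x ∂D.surface, x ∈ frontier D.carrier := D.support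
    rw [integral_congr_ae (g := fun _ => (0 : ℝ))]
    · simp
    · filter_upwards [hsupp] with x hx
      rw [h6 (frontier_subset_closure hx)]
      norm_num

/-- the Rayleigh quotient bounds the eigenvalue -/
private theorem co_robin (D : Domain 2) {u : E 2 → ℝ} (hu : ContDiff ℝ 1 u) {β c : ℝ}
    (hA : 0 < ∫ x in D.carrier, u x ^ 2)
    (h : (∫ x in D.carrier, ‖fderiv ℝ u x‖ ^ 2) - β * (∫ x, u x ^ 2 ∂D.surface) ≤
      c * ∫ x in D.carrier, u x ^ 2) :
    D.robin (-β) ≤ ((c : ℝ) : EReal) := by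
  have h1 : D.robin (-β) ≤ ((D.rayleigh (-β) u : ℝ) : EReal) := sInf_le ⟨u, hu, hA, rfl⟩
  refine h1.trans ?_
  rw [EReal.coe_le_coe_iff]
  unfold Domain.rayleigh
  rw [div_le_iff₀ hA]
  linarith

theorem hull_core (D : Domain 2) (B : Body) (h0 : ∀ θ, 0 < B.h θ) (hD : D.carrier ⊆ B.K)
    {u : E 2 → ℝ} (hu : ContDiff ℝ 1 u) {C c₀ k β δ ε η : ℝ}
    (hU : ∀ x ∈ B.K, u x ^ 2 ≤ C ^ 2) (hc₀ : 0 < c₀) (hlow : c₀ ≤ ∫ x in B.K, u x ^ 2)
    (hE : B.EB k β u ≤ ε) (hβ : 0 ≤ β) (hβk : β < k)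
    (hδ : ∀ θ, B.h θ ≤ supp D.carrier θ + δ) (hη : 0 < η)
    (hs : ε + β * (2 * Real.pi * C ^ 2 * δ) < min η (k ^ 2 - β ^ 2) * c₀) :
    D.robin (-β) ≤ ((-k ^ 2 + η : ℝ) : EReal) := by
  have hmD : MeasurableSet D.carrier := D.isOpen.measurableSet
  have hcK := B.isCompact_K
  have hcu := hu.continuous
  have hiK : IntegrableOn (fun x => u x ^ 2) B.K :=
    (hcu.pow 2).continuousOn.integrableOn_compact hcK
  have hiD := hiK.mono_set hD
  have hsplit := setIntegral_sdiff hmD hiK hD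
  have H := energy_le D B h0 hD hu hU hβ hβk.le hδ
  have hkβ : 0 < k ^ 2 - β ^ 2 := by nlinarith
  have hA0 : 0 ≤ ∫ x in D.carrier, u x ^ 2 := integral_nonneg fun x => sq_nonneg _
  have hA'0 : 0 ≤ ∫ x in B.K \ D.carrier, u x ^ 2 := integral_nonneg fun x => sq_nonneg _
  have hm1 : min η (k ^ 2 - β ^ 2) ≤ η := min_le_left _ _
  have hm2 : min η (k ^ 2 - β ^ 2) ≤ k ^ 2 - β ^ 2 := min_le_right _ _
  have hm0 : 0 < min η (k ^ 2 - β ^ 2) := lt_min hη hkβ
  set m := min η (k ^ 2 - β ^ 2) with hm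
  set A := ∫ x in D.carrier, u x ^ 2 with hAdef
  set A' := ∫ x in B.K \ D.carrier, u x ^ 2 with hA'def
  have hI : c₀ ≤ A + A' := by linarith
  have hmc : m * c₀ ≤ m * A + m * A' := by nlinarith
  have hApos : 0 < A := by
    rcases hA0.lt_or_eq with h | h
    · exact h
    · exfalso
      obtain ⟨n1, n2⟩ := co_zero D hu hiD (by rw [← hAdef, ← h])
      rw [n1, n2, ← h] at H
      rw [← h] at hmc
      have h3 : m * A' ≤ (k ^ 2 - β ^ 2) * A' := mul_le_mul_of_nonneg_right hm2 hA'0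
      linarith
  refine co_robin D hu hApos ?_
  rw [← hAdef]
  by_contra hcon
  push Not at hcon
  have h3 : m * A' ≤ (k ^ 2 - β ^ 2) * A' := mul_le_mul_of_nonneg_right hm2 hA'0
  have h4 : m * A ≤ η * A := mul_le_mul_of_nonneg_right hm1 hA0
  nlinarith

theorem hull_core_strict (D : Domain 2) (B : Body) (h0 : ∀ θ, 0 < B.h θ) (hD : D.carrier ⊆ B.K)
    {u : E 2 → ℝ} (hu : ContDiff ℝ 1 u) {C k β δ ε γ A : ℝ}
    (hU : ∀ x ∈ B.K, u x ^ 2 ≤ C ^ 2)
    (hE : B.EB k β u ≤ ε) (hβ : 0 ≤ β) (hβk : β < k)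
    (hδ : ∀ θ, B.h θ ≤ supp D.carrier θ + δ) (hγ : 0 < γ)
    (hA : C ^ 2 * volume.real D.carrier ≤ A)
    (hs : ε + β * (2 * Real.pi * C ^ 2 * δ) ≤ -γ) :
    D.robin (-β) ≤ ((-k ^ 2 - γ / A : ℝ) : EReal) := by
  have hmD : MeasurableSet D.carrier := D.isOpen.measurableSet
  have hcK := B.isCompact_K
  have hcu := hu.continuous
  have hiK : IntegrableOn (fun x => u x ^ 2) B.K :=
    (hcu.pow 2).continuousOn.integrableOn_compact hcK
  have hiD := hiK.mono_set hD
  have H := energy_le D B h0 hD hu hU hβ hβk.le hδ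
  have hkβ : 0 < k ^ 2 - β ^ 2 := by nlinarith
  have hA0 : 0 ≤ ∫ x in D.carrier, u x ^ 2 := integral_nonneg fun x => sq_nonneg _
  have hA'0 : 0 ≤ ∫ x in B.K \ D.carrier, u x ^ 2 := integral_nonneg fun x => sq_nonneg _
  have hfin : volume D.carrier ≠ ⊤ := (measure_mono hD).trans_lt hcK.measure_lt_top |>.ne
  have hle : (∫ x in D.carrier, u x ^ 2) ≤ C ^ 2 * volume.real D.carrier := by
    have h1 : (∫ x in D.carrier, u x ^ 2) ≤ ∫ x in D.carrier, C ^ 2 :=
      setIntegral_mono_on hiD (integrableOn_const hfin) hmD fun x hx => hU x (hD hx)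
    rw [setIntegral_const, smul_eq_mul, mul_comm] at h1
    exact h1
  set a := ∫ x in D.carrier, u x ^ 2 with hadef
  set A' := ∫ x in B.K \ D.carrier, u x ^ 2 with hA'def
  have h2 : 0 ≤ (k ^ 2 - β ^ 2) * A' := mul_nonneg hkβ.le hA'0
  have hpos : 0 < a := by
    rcases hA0.lt_or_eq with h | h
    · exact h
    · exfalso
      obtain ⟨n1, n2⟩ := co_zero D hu hiD (by rw [← hadef, ← h])
      rw [n1, n2, ← h] at H
      linarith
  refine co_robin D hu hpos ?_
  rw [← hadef]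
  have haA : a ≤ A := hle.trans hA
  have hApos : 0 < A := hpos.trans_le haA
  have h3 : γ / A * a ≤ γ := by
    rw [div_mul_eq_mul_div, div_le_iff₀ hApos]
    exact mul_le_mul_of_nonneg_left haA hγ.le
  nlinarith

end Pool.Agent.RC
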