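import Pool.Agent.H.MP_1b807b_an.C.Gauge
import Pool.Agent.H.MP_1b807b_an.C.ExistsBody

/-! MP_1b807b_an, hull theorem, module Defs: the energy of a function on a body -/

set_option autoImplicit false

namespace Pool.Agent.RC

open MeasureTheory Metric Set
open Pool.Agent.RG
open scoped RealInnerProductSpace

/-- `∫_K (|∇u|² + k² u²) - β ∮ u²` -/
noncomputable def Body.EB (B : Body) (k β : ℝ) (u : E 2 → ℝ) : ℝ :=
  (∫ x in B.K, (‖fderiv ℝ u x‖ ^ 2 + k ^ 2 * u x ^ 2)) -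
    β * ∫ φ in (0 : ℝ)..2 * Real.pi, u (B.y φ) ^ 2 * B.ρ φ

end Pool.Agent.RC
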