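import Pool.Agent.H.MP_1b807b_an.L.Defs

/-! MP_1b807b_an, hull theorem, module Wid: integrals over the lines of one direction -/

set_option autoImplicit false

namespace Pool.Agent.RC

open MeasureTheory Metric Set Filter
open Pool.Agent.RG
open scoped RealInnerProductSpace Topology

namespace Body
variable (B : Body)

/-- each line of direction `ev θ` through the interior meets the boundary twice -/
theorem width_integral {g : ℝ → ℝ} (hg : Continuous g) (θ : ℝ) :
    ∫ φ in (0 : ℝ)..2 * Real.pi, |Real.cos (φ - θ)| * g (sp (B.y φ) (θ + Real.pi / 2)) * B.ρ φ =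
      2 * ∫ t in (-B.h (θ - Real.pi / 2))..(B.h (θ + Real.pi / 2)), g t := by
  have hp := Real.pi_pos
  have hηc := B.continuous_spy (θ + Real.pi / 2)
  have hρc := B.continuous_ρ
  set η : ℝ → ℝ := fun φ => sp (B.y φ) (θ + Real.pi / 2) with hη
  have hηd : ∀ φ, HasDerivAt η (B.ρ φ * Real.cos (φ - θ)) φ := fun φ => B.hasDerivAt_eta θ φ
  have hηp : ∀ φ, η (φ + 2 * Real.pi) = η φ := fun φ => by
    simp only [hη]
    rw [B.per_y]
  set F : ℝ → ℝ := fun φ => |Real.cos (φ - θ)| * g (η φ) * B.ρ φ with hF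
  have hFc : Continuous F := by
    have := hg.comp hηc
    simp only [hF]
    fun_prop
  have hFp : Function.Periodic F (2 * Real.pi) := by
    intro φ
    simp only [hF]
    rw [hηp, B.per_ρ, show φ + 2 * Real.pi - θ = φ - θ + 2 * Real.pi by ring, Real.cos_add_two_pi]
  have hFi : ∀ a b, IntervalIntegrable F volume a b := fun a b => hFc.intervalIntegrable a b
  have h1 := hFp.intervalIntegral_add_eq 0 (θ - Real.pi / 2)
  rw [zero_add] at h1
  have e1 : η (θ + Real.pi / 2) = B.h (θ + Real.pi / 2) := B.sp_y _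
  have e2 : η (θ - Real.pi / 2) = -B.h (θ - Real.pi / 2) := by
    simp only [hη]
    rw [show θ + Real.pi / 2 = (θ - Real.pi / 2) + Real.pi by ring, sp_pi, B.sp_y]
  have e3 : η (θ + 3 * Real.pi / 2) = -B.h (θ - Real.pi / 2) := by
    rw [← e2, ← hηp (θ - Real.pi / 2)]
    congr 1
    ring
  have hcd : Continuous fun φ => B.ρ φ * Real.cos (φ - θ) := by fun_prop
  have hsub : ∀ a b : ℝ, (∫ φ in a..b, g (η φ) * (B.ρ φ * Real.cos (φ - θ))) =
      ∫ t in (η a)..(η b), g t := by
    intro a b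
    have := intervalIntegral.integral_comp_mul_deriv (a := a) (b := b) (f := η)
      (f' := fun φ => B.ρ φ * Real.cos (φ - θ)) (g := g) (fun φ _ => hηd φ) hcd.continuousOn hg
    exact this
  have h2 : (∫ φ in (θ - Real.pi / 2)..(θ + Real.pi / 2), F φ) =
      ∫ t in (-B.h (θ - Real.pi / 2))..(B.h (θ + Real.pi / 2)), g t := by
    rw [← e1, ← e2, ← hsub]
    refine intervalIntegral.integral_congr fun φ hφ => ?_
    rw [uIcc_of_le (by linarith)] at hφ
    have : 0 ≤ Real.cos (φ - θ) := Real.cos_nonneg_of_mem_Icc ⟨by linarith [hφ.1], by linarith [hφ.2]⟩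
    simp only [hF]
    rw [abs_of_nonneg this]
    ring
  have h3 : (∫ φ in (θ + Real.pi / 2)..(θ + 3 * Real.pi / 2), F φ) =
      ∫ t in (-B.h (θ - Real.pi / 2))..(B.h (θ + Real.pi / 2)), g t := by
    have h4 : (∫ φ in (θ + Real.pi / 2)..(θ + 3 * Real.pi / 2), F φ) =
        -∫ φ in (θ + Real.pi / 2)..(θ + 3 * Real.pi / 2), g (η φ) * (B.ρ φ * Real.cos (φ - θ)) := by
      rw [← intervalIntegral.integral_neg]
      refine intervalIntegral.integral_congr fun φ hφ => ?_
      rw [uIcc_of_le (by linarith)] at hφ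
      have : Real.cos (φ - θ) ≤ 0 := Real.cos_nonpos_of_pi_div_two_le_of_le
        (by linarith [hφ.1]) (by linarith [hφ.2])
      simp only [hF]
      rw [abs_of_nonpos this]
      ring
    rw [h4, hsub, e1, e3, intervalIntegral.integral_symm, neg_neg]
  have h5 : (∫ φ in (0 : ℝ)..2 * Real.pi, F φ) =
      (∫ φ in (θ - Real.pi / 2)..(θ + Real.pi / 2), F φ) +
      ∫ φ in (θ + Real.pi / 2)..(θ + 3 * Real.pi / 2), F φ := by
    rw [h1, intervalIntegral.integral_add_adjacent_intervals (hFi _ _) (hFi _ _)]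
    congr 1
    ring
  rw [h5, h2, h3]
  ring

end Body

end Pool.Agent.RC
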