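import Pool.Agent.H.MP_1b807b_an.L.Psi
import Pool.Agent.H.MP_1b807b_an.L.BDiv
import Pool.Agent.H.MP_1b807b_an.L.Wid

/-! MP_1b807b_an, hull theorem, module Dir: the weighted hull inequality in one direction -/

set_option autoImplicit false

namespace Pool.Agent.RC

open MeasureTheory Metric Set Filter
open Pool.Agent.RG
open scoped RealInnerProductSpace Topology

private theorem dr_tr_smulRight (L : E 2 →L[ℝ] ℝ) (v : E 2) : tr (L.smulRight v) = L v := by
  unfold tr
  have h1 : v = ∑ i : Fin 2, v i • EuclideanSpace.single i (1 : ℝ) := by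
    ext j
    fin_cases j <;> simp
  calc ∑ i : Fin 2, (L.smulRight v (EuclideanSpace.single i 1)) i
      = ∑ i : Fin 2, v i * L (EuclideanSpace.single i 1) := by
        refine Finset.sum_congr rfl (fun i _ => ?_)
        simp [ContinuousLinearMap.smulRight_apply, mul_comm]
    _ = L (∑ i : Fin 2, v i • EuclideanSpace.single i (1 : ℝ)) := by
        rw [map_sum]
        refine Finset.sum_congr rfl (fun i _ => ?_)
        rw [map_smul, smul_eq_mul]
    _ = L v := by rw [← h1]

/-- the divergence theorem for a function times a constant vector -/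
theorem dir_divergence (D : Domain 2) {g : E 2 → ℝ} (hg : ContDiff ℝ 1 g) (c : E 2) :
    ∫ x in D.carrier, fderiv ℝ g x c = ∫ x, g x * ⟪c, D.normal x⟫ ∂D.surface := by
  have h1 := D.divergence (fun x => g x • c) (hg.smul contDiff_const)
  have h2 : (fun x => ⟪g x • c, D.normal x⟫) = fun x => g x * ⟪c, D.normal x⟫ := by
    funext x
    rw [real_inner_smul_left]
  rw [h2] at h1
  rw [← h1]
  refine integral_congr_ae (Eventually.of_forall fun x => ?_)
  have h3 : HasFDerivAt (fun x => g x • c) ((fderiv ℝ g x).smulRight c) x :=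
    ((hg.differentiable one_ne_zero) x).hasFDerivAt.smul_const c
  show fderiv ℝ g x c = divg (fun x => g x • c) x
  rw [divg, h3.fderiv, dr_tr_smulRight]

/-- The weighted hull inequality in one direction: a domain `D` inside the body `B`. -/
theorem hull_dir (D : Domain 2) (B : Body) (h0 : ∀ t, 0 < B.h t) (hDK : D.carrier ⊆ B.K)
    {w : E 2 → ℝ} (hw : ContDiff ℝ 1 w) (hw0 : ∀ x, 0 ≤ w x) {W : ℝ} (hW : ∀ x ∈ B.K, w x ≤ W)
    (θ : ℝ) :
    (∫ φ in (0 : ℝ)..2 * Real.pi, w (B.y φ) * |Real.cos (φ - θ)| * B.ρ φ) ≤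
      (∫ x, w x * |⟪ev θ, D.normal x⟫| ∂D.surface) +
      (∫ x in B.K \ D.carrier, |fderiv ℝ w x (ev θ)|) +
      2 * W * ((B.h (θ - Real.pi / 2) - supp D.carrier (θ - Real.pi / 2)) +
        (B.h (θ + Real.pi / 2) - supp D.carrier (θ + Real.pi / 2))) := by
  have hπ := Real.pi_pos
  have hfinS := D.isFinite
  have hmK := B.measurableSet_K
  have hmD : MeasurableSet D.carrier := D.isOpen.measurableSet
  have hcK := B.isCompact_K
  have hW0 : 0 ≤ W := (hw0 _).trans (hW _ (B.y_mem 0))
  -- it is enough to prove it up to `ε`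
  suffices H : ∀ ε > (0 : ℝ),
      (∫ φ in (0 : ℝ)..2 * Real.pi, w (B.y φ) * |Real.cos (φ - θ)| * B.ρ φ) ≤
        (∫ x, w x * |⟪ev θ, D.normal x⟫| ∂D.surface) +
        (∫ x in B.K \ D.carrier, |fderiv ℝ w x (ev θ)|) +
        2 * W * ((B.h (θ - Real.pi / 2) - supp D.carrier (θ - Real.pi / 2)) +
          (B.h (θ + Real.pi / 2) - supp D.carrier (θ + Real.pi / 2)) + ε) by
    refine le_of_forall_pos_le_add fun η hη => ?_
    have h1 := H (η / (2 * W + 1)) (by positivity)
    have h2 : 2 * W * (η / (2 * W + 1)) ≤ η := by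
      rw [mul_div_assoc', div_le_iff₀ (by positivity)]
      nlinarith
    rw [mul_add] at h1
    linarith
  intro ε hε
  obtain ⟨ψ, g, hψ, hψ1, hψ0, hg, hg01, hψB, hgi⟩ :=
    exists_psi B D.isOpen D.isConnected D.isBounded hDK θ hε
  have hwψ : ContDiff ℝ 1 fun x => w x * ψ x := hw.mul hψ
  -- the derivative in the direction
  have hd : ∀ x, fderiv ℝ (fun x => w x * ψ x) x (ev θ) =
      w x * fderiv ℝ ψ x (ev θ) + ψ x * fderiv ℝ w x (ev θ) := by
    intro x
    have d1 : HasFDerivAt w (fderiv ℝ w x) x := ((hw.differentiable one_ne_zero) x).hasFDerivAt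
    have d2 : HasFDerivAt ψ (fderiv ℝ ψ x) x := ((hψ.differentiable one_ne_zero) x).hasFDerivAt
    have d3 : HasFDerivAt (fun x => w x * ψ x) (w x • fderiv ℝ ψ x + ψ x • fderiv ℝ w x) x :=
      d1.mul d2
    rw [d3.fderiv]
    simp
  have hcont : Continuous fun x => fderiv ℝ (fun x => w x * ψ x) x (ev θ) :=
    (hwψ.continuous_fderiv one_ne_zero).clm_apply continuous_const
  have hcontw : Continuous fun x => fderiv ℝ w x (ev θ) :=
    (hw.continuous_fderiv one_ne_zero).clm_apply continuous_const
  -- the splitting of the body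
  have hsplit : (∫ x in B.K, fderiv ℝ (fun x => w x * ψ x) x (ev θ)) =
      (∫ x in D.carrier, fderiv ℝ (fun x => w x * ψ x) x (ev θ)) +
      ∫ x in B.K \ D.carrier, fderiv ℝ (fun x => w x * ψ x) x (ev θ) := by
    have hi : IntegrableOn (fun x => fderiv ℝ (fun x => w x * ψ x) x (ev θ)) B.K :=
      hcont.continuousOn.integrableOn_compact hcK
    have h1 := setIntegral_union (disjoint_sdiff_right (s := D.carrier) (t := B.K))
      (hmK.diff hmD) (hi.mono_set hDK) (hi.mono_set sdiff_subset)
    rw [union_sdiff_cancel hDK] at h1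
    exact h1
  have hdiff : (∫ x in B.K \ D.carrier, fderiv ℝ (fun x => w x * ψ x) x (ev θ)) ≤
      ∫ x in B.K \ D.carrier, |fderiv ℝ w x (ev θ)| := by
    refine setIntegral_mono_on
      ((hcont.continuousOn.integrableOn_compact hcK).mono_set sdiff_subset)
      ((hcontw.abs.continuousOn.integrableOn_compact hcK).mono_set sdiff_subset)
      (hmK.diff hmD) fun x hx => ?_
    rw [hd, hψ0 x hx.2, mul_zero, zero_add]
    calc ψ x * fderiv ℝ w x (ev θ) ≤ |ψ x * fderiv ℝ w x (ev θ)| := le_abs_self _
      _ = |ψ x| * |fderiv ℝ w x (ev θ)| := abs_mul _ _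
      _ ≤ 1 * |fderiv ℝ w x (ev θ)| := mul_le_mul_of_nonneg_right (hψ1 x) (abs_nonneg _)
      _ = _ := one_mul _
  -- the surface term
  have hsurf : (∫ x in D.carrier, fderiv ℝ (fun x => w x * ψ x) x (ev θ)) ≤
      ∫ x, w x * |⟪ev θ, D.normal x⟫| ∂D.surface := by
    rw [dir_divergence D hwψ]
    have hsupp : ∀ᵐ x ∂D.surface, x ∈ frontier D.carrier := D.support
    have hcomp : IsCompact (closure D.carrier) := D.isBounded.isCompact_closure
    obtain ⟨C, hC⟩ := hcomp.exists_bound_of_continuousOn (f := w) hw.continuous.continuousOn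
    have hn : ∀ᵐ x ∂D.surface, |⟪ev θ, D.normal x⟫| ≤ 1 := by
      filter_upwards [D.norm_normal] with x hx
      have := abs_real_inner_le_norm (ev θ) (D.normal x)
      rwa [norm_ev, hx, mul_one] at this
    have hmi : Measurable fun x => ⟪ev θ, D.normal x⟫ := measurable_const.inner D.measurable_normal
    refine integral_mono_ae ?_ ?_ ?_
    · refine Integrable.of_bound (C := C)
        ((hwψ.continuous.measurable.mul hmi).aestronglyMeasurable) ?_
      filter_upwards [hsupp, hn] with x hx hx'
      rw [Real.norm_eq_abs, abs_mul, abs_mul]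
      have h1 := hC x (frontier_subset_closure hx)
      rw [Real.norm_eq_abs] at h1
      calc |w x| * |ψ x| * |⟪ev θ, D.normal x⟫| ≤ C * 1 * 1 := by
            refine mul_le_mul (mul_le_mul h1 (hψ1 x) (abs_nonneg _)
              ((abs_nonneg _).trans h1)) hx' (abs_nonneg _) ?_
            exact mul_nonneg ((abs_nonneg _).trans h1) zero_le_one
        _ = C := by ring
    · refine Integrable.of_bound (C := C)
        ((hw.continuous.measurable.mul hmi.norm).aestronglyMeasurable) ?_
      filter_upwards [hsupp, hn] with x hx hx'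
      rw [Real.norm_eq_abs, abs_mul]
      have h1 := hC x (frontier_subset_closure hx)
      rw [Real.norm_eq_abs] at h1
      calc |w x| * ‖(‖⟪ev θ, D.normal x⟫‖)‖ ≤ C * 1 := by
            refine mul_le_mul h1 ?_ (norm_nonneg _) ((abs_nonneg _).trans h1)
            rw [norm_norm, Real.norm_eq_abs]
            exact hx'
        _ = C := by ring
    · refine Eventually.of_forall fun x => ?_
      show w x * ψ x * ⟪ev θ, D.normal x⟫ ≤ w x * |⟪ev θ, D.normal x⟫|
      rw [mul_assoc]
      refine mul_le_mul_of_nonneg_left ?_ (hw0 x)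
      calc ψ x * ⟪ev θ, D.normal x⟫ ≤ |ψ x * ⟪ev θ, D.normal x⟫| := le_abs_self _
        _ = |ψ x| * |⟪ev θ, D.normal x⟫| := abs_mul _ _
        _ ≤ 1 * |⟪ev θ, D.normal x⟫| := mul_le_mul_of_nonneg_right (hψ1 x) (abs_nonneg _)
        _ = _ := one_mul _
  -- the boundary term of the body
  have hcy := B.continuous_y
  have hcρ := B.continuous_ρ
  have hcw := hw.continuous
  have hcp : Continuous fun φ => sp (B.y φ) (θ + Real.pi / 2) := by
    simp_rw [sp_eq_inner]
    exact hcy.inner continuous_const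
  have hbd : (∫ x in B.K, fderiv ℝ (fun x => w x * ψ x) x (ev θ)) =
      (∫ φ in (0 : ℝ)..2 * Real.pi, w (B.y φ) * |Real.cos (φ - θ)| * B.ρ φ) -
      ∫ φ in (0 : ℝ)..2 * Real.pi, w (B.y φ) * (|Real.cos (φ - θ)| *
        g (sp (B.y φ) (θ + Real.pi / 2)) * B.ρ φ) := by
    rw [B.div_dir h0 hwψ θ, ← intervalIntegral.integral_sub]
    · refine intervalIntegral.integral_congr fun φ _ => ?_
      show w (B.y φ) * ψ (B.y φ) * Real.cos (φ - θ) * B.ρ φ = _
      rw [mul_assoc (w (B.y φ)), hψB φ]
      ring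
    · apply Continuous.intervalIntegrable
      fun_prop
    · apply Continuous.intervalIntegrable
      have := hg.comp hcp
      fun_prop
  have hwid : (∫ φ in (0 : ℝ)..2 * Real.pi, w (B.y φ) * (|Real.cos (φ - θ)| *
        g (sp (B.y φ) (θ + Real.pi / 2)) * B.ρ φ)) ≤
      W * (2 * ((B.h (θ - Real.pi / 2) - supp D.carrier (θ - Real.pi / 2)) +
          (B.h (θ + Real.pi / 2) - supp D.carrier (θ + Real.pi / 2)) + ε)) := by
    calc (∫ φ in (0 : ℝ)..2 * Real.pi, w (B.y φ) * (|Real.cos (φ - θ)| *
          g (sp (B.y φ) (θ + Real.pi / 2)) * B.ρ φ)) ≤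
        ∫ φ in (0 : ℝ)..2 * Real.pi, W * (|Real.cos (φ - θ)| *
          g (sp (B.y φ) (θ + Real.pi / 2)) * B.ρ φ) := by
          refine intervalIntegral.integral_mono_on (by positivity) ?_ ?_ fun φ _ => ?_
          · apply Continuous.intervalIntegrable
            have := hg.comp hcp
            fun_prop
          · apply Continuous.intervalIntegrable
            have := hg.comp hcp
            fun_prop
          · exact mul_le_mul_of_nonneg_right (hW _ (B.y_mem φ))
              (mul_nonneg (mul_nonneg (abs_nonneg _) (hg01 _).1) (B.ρ_pos φ).le)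
      _ = W * (2 * ∫ t in (-B.h (θ - Real.pi / 2))..(B.h (θ + Real.pi / 2)), g t) := by
          rw [intervalIntegral.integral_const_mul, B.width_integral hg θ]
      _ ≤ _ := by
          refine mul_le_mul_of_nonneg_left ?_ hW0
          linarith
  have e1 := hsplit
  rw [hbd] at e1
  have e2 : W * (2 * ((B.h (θ - Real.pi / 2) - supp D.carrier (θ - Real.pi / 2)) +
          (B.h (θ + Real.pi / 2) - supp D.carrier (θ + Real.pi / 2)) + ε)) =
      2 * W * ((B.h (θ - Real.pi / 2) - supp D.carrier (θ - Real.pi / 2)) +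
          (B.h (θ + Real.pi / 2) - supp D.carrier (θ + Real.pi / 2)) + ε) := by ring
  linarith

end Pool.Agent.RC
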