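import Pool.Agent.H.MP_1b807b_an.L.Defs

/-! MP_1b807b_an, hull theorem, module Out: outer bodies of a bounded open set -/

set_option autoImplicit false

namespace Pool.Agent.RC

open MeasureTheory Metric Set
open Pool.Agent.RG
open scoped RealInnerProductSpace Pointwise ENNReal

theorem supp_convexHull {Ω : Set (E 2)} (hb : Bornology.IsBounded Ω) (hne : Ω.Nonempty) (θ : ℝ) :
    supp (convexHull ℝ Ω) θ = supp Ω θ := by
  obtain ⟨R, hRpos, hR⟩ := hb.exists_pos_norm_le
  have hR' : ∀ x ∈ convexHull ℝ Ω, ‖x‖ ≤ R := by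
    intro x hx
    have h1 : convexHull ℝ Ω ⊆ closedBall (0 : E 2) R :=
      convexHull_min (fun y hy => mem_closedBall_zero_iff.2 (hR y hy)) (convex_closedBall 0 R)
    exact mem_closedBall_zero_iff.1 (h1 hx)
  apply le_antisymm
  · refine supp_le hne.convexHull fun x hx => ?_
    have h1 : convexHull ℝ Ω ⊆ {x : E 2 | sp x θ ≤ supp Ω θ} := by
      refine convexHull_min (fun y hy => le_supp hR hy θ) ?_
      intro x hx z hz a b ha hb hab
      have hx' : sp x θ ≤ supp Ω θ := hx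
      have hz' : sp z θ ≤ supp Ω θ := hz
      change sp (a • x + b • z) θ ≤ supp Ω θ
      rw [sp_add, sp_smul, sp_smul]
      calc a * sp x θ + b * sp z θ ≤ a * supp Ω θ + b * supp Ω θ :=
            add_le_add (mul_le_mul_of_nonneg_left hx' ha) (mul_le_mul_of_nonneg_left hz' hb)
        _ = supp Ω θ := by rw [← add_mul, hab, one_mul]
    exact h1 hx
  · exact supp_le hne fun x hx => le_supp hR' (subset_convexHull ℝ Ω hx) θ

theorem supp_smul {Ω : Set (E 2)} (hb : Bornology.IsBounded Ω) (hne : Ω.Nonempty) {c : ℝ}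
    (hc : 0 < c) (θ : ℝ) : supp ((fun x : E 2 => c • x) '' Ω) θ = c * supp Ω θ := by
  obtain ⟨R, hRpos, hR⟩ := hb.exists_pos_norm_le
  have hR' : ∀ x ∈ (fun x : E 2 => c • x) '' Ω, ‖x‖ ≤ c * R := by
    rintro _ ⟨x, hx, rfl⟩
    rw [norm_smul, Real.norm_of_nonneg hc.le]
    exact mul_le_mul_of_nonneg_left (hR x hx) hc.le
  apply le_antisymm
  · refine supp_le (hne.image _) ?_
    rintro _ ⟨x, hx, rfl⟩
    rw [sp_smul]
    exact mul_le_mul_of_nonneg_left (le_supp hR hx θ) hc.le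
  · rw [← le_div_iff₀' hc]
    refine supp_le hne fun x hx => ?_
    rw [le_div_iff₀' hc, ← sp_smul]
    exact le_supp hR' ⟨x, hx, rfl⟩ θ

theorem exists_outer {Ω : Set (E 2)} (ho : IsOpen Ω) (hb : Bornology.IsBounded Ω)
    (h0 : (0 : E 2) ∈ Ω) {δ : ℝ} (hδ : 0 < δ) :
    ∃ B : Body, (∀ θ, 0 < B.h θ) ∧ Ω ⊆ B.K ∧ (∀ θ, B.h θ ≤ supp Ω θ + δ) ∧
      volume.real (convexHull ℝ Ω) ≤ B.area ∧ B.area ≤ volume.real (convexHull ℝ Ω) + δ := by
  obtain ⟨R, hRpos, hR⟩ := hb.exists_pos_norm_le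
  have hne : Ω.Nonempty := ⟨0, h0⟩
  obtain ⟨r, hr, hrb⟩ : ∃ r > 0, closedBall (0 : E 2) r ⊆ Ω :=
    Metric.nhds_basis_closedBall.mem_iff.1 (ho.mem_nhds h0)
  obtain ⟨m, hm⟩ : ∃ m : ℝ, m = volume.real (convexHull ℝ Ω) := ⟨_, rfl⟩
  have hm0 : 0 ≤ m := by
    rw [hm]
    exact measureReal_nonneg
  rw [← hm]
  obtain ⟨η, hη0, hη1, hη2⟩ : ∃ η : ℝ, 0 < η ∧ η ≤ 1 ∧ 3 * η * m ≤ δ := by
    refine ⟨min 1 (δ / (3 * (m + 1))), by positivity, min_le_left _ _, ?_⟩
    have h1 : min 1 (δ / (3 * (m + 1))) ≤ δ / (3 * (m + 1)) := min_le_right _ _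
    have h2 : 3 * (δ / (3 * (m + 1))) * m ≤ δ := by
      have : 3 * (δ / (3 * (m + 1))) * m = δ * (m / (m + 1)) := by
        field_simp
      rw [this]
      have h3 : m / (m + 1) ≤ 1 := by
        rw [div_le_one (by linarith)]
        linarith
      nlinarith
    nlinarith
  obtain ⟨t, ht0, ht1, ht2⟩ : ∃ t : ℝ, 0 < t ∧ t ≤ δ ∧ t ≤ η * r :=
    ⟨min δ (η * r), lt_min hδ (mul_pos hη0 hr), min_le_left _ _, min_le_right _ _⟩
  obtain ⟨ε, hε0, hεR⟩ : ∃ ε : ℝ, 0 < ε ∧ R * ε ≤ t / 3 := by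
    refine ⟨t / (3 * R), by positivity, le_of_eq ?_⟩
    field_simp
  obtain ⟨F, hF3, hFp, hF2, hFa⟩ := exists_mollified h0 hR hε0
  have hH : ∀ θ, r ≤ supp Ω θ := supp_pos hR hr hrb
  have hd1 : deriv (fun θ => F θ + 2 * t / 3) = fun θ => deriv F θ := by
    funext θ
    exact deriv_add_const _
  have hd2 : ∀ θ, deriv (deriv fun θ => F θ + 2 * t / 3) θ = deriv (deriv F) θ := by
    intro θ
    rw [hd1]
  let B : Body :=
    { h := fun θ => F θ + 2 * t / 3
      smooth := hF3.add contDiff_const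
      per := fun θ => by simp only [hFp θ]
      pos := fun θ => by
        rw [hd2 θ]
        have h1 := hF2 θ
        linarith }
  have hBh : ∀ θ, B.h θ = F θ + 2 * t / 3 := fun θ => rfl
  have hlow : ∀ θ, supp Ω θ ≤ B.h θ := by
    intro θ
    rw [hBh]
    have h1 := (abs_le.1 (hFa θ)).1
    linarith
  have hup : ∀ θ, B.h θ ≤ supp Ω θ + t := by
    intro θ
    rw [hBh]
    have h1 := (abs_le.1 (hFa θ)).2
    linarith
  have hpos : ∀ θ, 0 < B.h θ := fun θ => by
    have h1 := hlow θ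
    have h2 := hH θ
    linarith
  have hΩK : Ω ⊆ B.K := by
    intro x hx
    rw [B.mem_K_iff]
    exact fun θ => (le_supp hR hx θ).trans (hlow θ)
  have hcK : convexHull ℝ Ω ⊆ B.K := convexHull_min hΩK B.convex_K
  have hKfin : volume B.K ≠ ∞ := B.isCompact_K.measure_lt_top.ne
  refine ⟨B, hpos, hΩK, fun θ => (hup θ).trans (by linarith), ?_, ?_⟩
  · rw [← B.volume_K hpos, hm]
    exact measureReal_mono hcK hKfin
  · have h1η : 0 < 1 + η := by linarith
    have hsub : B.K ⊆ (1 + η) • closure (convexHull ℝ Ω) := by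
      intro x hx
      rw [B.mem_K_iff] at hx
      have h1 : ∀ θ, sp ((1 + η)⁻¹ • x) θ ≤ supp (convexHull ℝ Ω) θ := by
        intro θ
        rw [sp_smul, inv_mul_le_iff₀ h1η, supp_convexHull hb hne]
        have h2 := hx θ
        have h3 := hup θ
        have h4 := hH θ
        nlinarith
      have h2 := mem_closure_of_sp_le (convex_convexHull ℝ Ω) hne.convexHull h1
      exact ⟨(1 + η)⁻¹ • x, h2, smul_inv_smul₀ h1η.ne' x⟩
    have hbc : Bornology.IsBounded (convexHull ℝ Ω) := isBounded_convexHull.2 hb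
    have hfin : volume (convexHull ℝ Ω) ≠ ∞ := hbc.measure_lt_top.ne
    have hcl : volume (closure (convexHull ℝ Ω)) ≤ volume (convexHull ℝ Ω) := by
      rw [closure_eq_self_union_frontier]
      refine (measure_union_le _ _).trans ?_
      rw [(convex_convexHull ℝ Ω).addHaar_frontier volume, add_zero]
    have hvol : volume.real ((1 + η) • closure (convexHull ℝ Ω)) =
        (1 + η) ^ 2 * volume.real (closure (convexHull ℝ Ω)) := by
      rw [Measure.real, Measure.addHaar_smul, ENNReal.toReal_mul,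
        ENNReal.toReal_ofReal (abs_nonneg _), finrank_euclideanSpace_fin,
        abs_of_nonneg (by positivity), Measure.real]
    have hclr : volume.real (closure (convexHull ℝ Ω)) ≤ m := by
      rw [hm]
      exact ENNReal.toReal_mono hfin hcl
    have hfin2 : volume ((1 + η) • closure (convexHull ℝ Ω)) ≠ ∞ := by
      rw [Measure.addHaar_smul]
      exact ENNReal.mul_ne_top ENNReal.ofReal_ne_top (ne_top_of_le_ne_top hfin hcl)
    rw [← B.volume_K hpos]
    calc volume.real B.K ≤ volume.real ((1 + η) • closure (convexHull ℝ Ω)) :=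
          measureReal_mono hsub hfin2
      _ = (1 + η) ^ 2 * volume.real (closure (convexHull ℝ Ω)) := hvol
      _ ≤ (1 + η) ^ 2 * m := mul_le_mul_of_nonneg_left hclr (by positivity)
      _ ≤ m + δ := by nlinarith [mul_nonneg hη0.le hm0]

end Pool.Agent.RC
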