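import Pool.Agent.H.MP_1b807b_an.L.Ener
import Pool.Agent.H.MP_1b807b_an.L.Out
import Pool.Agent.H.MP_1b807b_an.C.BallK

/-! MP_1b807b_an, hull theorem, module Disc: the hull is a disc -/

set_option autoImplicit false

namespace Pool.Agent.RC

open MeasureTheory Metric Set
open Pool.Agent.RG
open scoped RealInnerProductSpace Pointwise

private theorem disc_divg_smul {g : E 2 → ℝ} {Z : E 2 → E 2} {x : E 2}
    (hg : DifferentiableAt ℝ g x) (hZ : DifferentiableAt ℝ Z x) :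
    divg (fun y => g y • Z y) x = fderiv ℝ g x (Z x) + g x * divg Z x := by
  unfold divg tr
  rw [fderiv_fun_smul hg hZ]
  have h1 : fderiv ℝ g x (Z x) = ∑ i : Fin 2, fderiv ℝ g x (EuclideanSpace.single i 1) * (Z x) i := by
    conv_lhs => rw [← (EuclideanSpace.basisFun (Fin 2) ℝ).sum_repr (Z x)]
    rw [map_sum]
    refine Finset.sum_congr rfl fun i _ => ?_
    rw [map_smul]
    simp [mul_comm]
  rw [h1, Finset.mul_sum, ← Finset.sum_add_distrib]
  refine Finset.sum_congr rfl fun i _ => ?_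
  simp
  ring

private theorem disc_divg_id (x : E 2) : divg (fun y : E 2 => y) x = 2 := by
  unfold divg tr
  simp

private theorem disc_fderiv_radial {f : ℝ → ℝ} {f' : ℝ} {x : E 2}
    (hf : HasDerivAt f f' (‖x‖ ^ 2)) :
    HasFDerivAt (fun y : E 2 => f (‖y‖ ^ 2)) (f' • (2 • innerSL ℝ x)) x := by
  have h2 : HasFDerivAt (fun y : E 2 => ‖y‖ ^ 2) (2 • innerSL ℝ x) x :=
    (hasStrictFDerivAt_norm_sq x).hasFDerivAt
  exact hf.comp_hasFDerivAt x h2

private theorem disc_divg_radial {f : ℝ → ℝ} {f' : ℝ} {x : E 2}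
    (hf : HasDerivAt f f' (‖x‖ ^ 2)) :
    divg (fun y : E 2 => f (‖y‖ ^ 2) • y) x = 2 * f (‖x‖ ^ 2) + 2 * ‖x‖ ^ 2 * f' := by
  have h := disc_fderiv_radial hf
  rw [disc_divg_smul (Z := fun y => y) h.differentiableAt differentiableAt_id, h.fderiv,
    disc_divg_id]
  simp
  ring

private theorem disc_contDiff_of {f f' : ℝ → ℝ} (h : ∀ t, HasDerivAt f (f' t) t)
    (hc : Continuous f') : ContDiff ℝ 1 f := by
  rw [contDiff_one_iff_deriv]
  refine ⟨fun t => (h t).differentiableAt, ?_⟩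
  have : deriv f = f' := funext fun t => (h t).deriv
  rw [this]; exact hc

/-- the disc as a body -/
private noncomputable def discBody {R : ℝ} (hR : 0 < R) : Body where
  h := fun _ => R
  smooth := contDiff_const
  per := fun _ => rfl
  pos := by
    intro θ
    simp [hR]

private theorem disc_y {R : ℝ} (hR : 0 < R) (θ : ℝ) : (discBody hR).y θ = R • ev θ := by
  simp [Body.y, Body.p, discBody]

private theorem disc_rho {R : ℝ} (hR : 0 < R) (θ : ℝ) : (discBody hR).ρ θ = R := by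
  simp [Body.ρ, discBody]

private theorem disc_K {R : ℝ} (hR : 0 < R) : (discBody hR).K = closedBall 0 R := by
  ext x
  rw [Body.mem_K_iff, mem_closedBall_zero_iff]
  constructor
  · intro h
    obtain ⟨θ, hθ⟩ := exists_polar x
    have h1 : sp x θ ≤ R := h θ
    rw [hθ, sp_smul, sp_ev, sub_self, Real.cos_zero, mul_one] at h1
    exact h1
  · intro h θ
    exact ((le_abs_self _).trans (abs_sp_le x θ)).trans h

/-- the radial eigenfunction of the disc -/
theorem disc_energy {R k : ℝ} (hR : 0 < R) (hk : 0 < k) :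
    ∃ (B : Body) (u : E 2 → ℝ), (∀ θ, B.h θ = R) ∧ B.K = closedBall 0 R ∧ ContDiff ℝ 1 u ∧
      (∀ x, 1 ≤ u x) ∧ B.EB (k / R) (k * GG k / R) u = 0 := by
  have hkR : 0 < k / R := by positivity
  obtain ⟨φ, w, w1, h⟩ := radFun_of_k 1 (R := R) hkR
  have e : k / R * R = k := by field_simp
  rw [e] at h
  have hw : ContDiff ℝ 1 w := disc_contDiff_of h.dw h.cw1
  have hφ : ContDiff ℝ 1 φ := disc_contDiff_of h.dφ (hw.continuous.div_const 2)
  have hsq : ContDiff ℝ 1 (fun x : E 2 => ‖x‖ ^ 2) := contDiff_norm_sq ℝ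
  have hu : ContDiff ℝ 1 (fun x : E 2 => φ (‖x‖ ^ 2)) := hφ.comp hsq
  refine ⟨discBody hR, fun x => φ (‖x‖ ^ 2), fun θ => rfl, disc_K hR, hu,
    fun x => h.one_le _ (sq_nonneg _), ?_⟩
  have hX : ContDiff ℝ 1 (fun x : E 2 => (φ (‖x‖ ^ 2) * w (‖x‖ ^ 2)) • x) :=
    ((hφ.comp hsq).mul (hw.comp hsq)).smul contDiff_id
  have hdiv := Body.div_field (discBody hR) (fun θ => hR) hX
  have h1 : ∀ x : E 2, ‖fderiv ℝ (fun y : E 2 => φ (‖y‖ ^ 2)) x‖ ^ 2 +
      (k / R) ^ 2 * φ (‖x‖ ^ 2) ^ 2 =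
      divg (fun y : E 2 => (φ (‖y‖ ^ 2) * w (‖y‖ ^ 2)) • y) x := by
    intro x
    have h2 : HasDerivAt (fun t => φ t * w t)
        (w (‖x‖ ^ 2) / 2 * w (‖x‖ ^ 2) + φ (‖x‖ ^ 2) * w1 (‖x‖ ^ 2)) (‖x‖ ^ 2) :=
      (h.dφ _).mul (h.dw _)
    have h3 := disc_divg_radial h2
    have h4 : fderiv ℝ (fun y : E 2 => φ (‖y‖ ^ 2)) x = w (‖x‖ ^ 2) • innerSL ℝ x := by
      rw [(disc_fderiv_radial (h.dφ (‖x‖ ^ 2))).fderiv]
      ext v
      simp
      ring
    have hode := h.ode (‖x‖ ^ 2)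
    have e3 : divg (fun y : E 2 => (φ (‖y‖ ^ 2) * w (‖y‖ ^ 2)) • y) x =
        2 * (φ (‖x‖ ^ 2) * w (‖x‖ ^ 2)) + 2 * ‖x‖ ^ 2 *
        (w (‖x‖ ^ 2) / 2 * w (‖x‖ ^ 2) + φ (‖x‖ ^ 2) * w1 (‖x‖ ^ 2)) := h3
    rw [e3, h4, norm_smul, innerSL_apply_norm, mul_pow, Real.norm_eq_abs, sq_abs]
    push_cast at hode
    linear_combination (-φ (‖x‖ ^ 2)) * hode
  have hbc := h.bc
  unfold Body.EB
  rw [show (fun x : E 2 => ‖fderiv ℝ (fun y : E 2 => φ (‖y‖ ^ 2)) x‖ ^ 2 +
      (k / R) ^ 2 * φ (‖x‖ ^ 2) ^ 2) =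
      fun x => divg (fun y : E 2 => (φ (‖y‖ ^ 2) * w (‖y‖ ^ 2)) • y) x from funext h1, hdiv]
  have h5 : ∀ θ : ℝ, ‖(discBody hR).y θ‖ ^ 2 = R ^ 2 := by
    intro θ
    rw [disc_y, norm_smul, norm_ev, mul_one, Real.norm_eq_abs, sq_abs]
  have h6 : ∀ θ : ℝ, ⟪(φ (‖(discBody hR).y θ‖ ^ 2) * w (‖(discBody hR).y θ‖ ^ 2)) •
      (discBody hR).y θ, ev θ⟫ * (discBody hR).ρ θ = φ (R ^ 2) * (R * w (R ^ 2)) * R := by
    intro θ
    rw [h5, disc_y, disc_rho, inner_smul_left, inner_smul_left, real_inner_self_eq_norm_sq,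
      norm_ev]
    simp only [conj_trivial]
    ring
  have h7 : ∀ θ : ℝ, φ (‖(discBody hR).y θ‖ ^ 2) ^ 2 * (discBody hR).ρ θ = φ (R ^ 2) ^ 2 * R := by
    intro θ
    rw [h5, disc_rho]
  simp only [h6, h7, intervalIntegral.integral_const, smul_eq_mul]
  rw [hbc]
  unfold GG
  field_simp
  ring

theorem disc_strict (D : Domain 2) {R : ℝ} (hR : 0 < R)
    (hD : convexHull ℝ D.carrier = ball 0 R) (hv : volume (ball (0 : E 2) R \ D.carrier) ≠ 0)
    {k : ℝ} (hk : 0 < k) :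
    ∃ η > (0 : ℝ), D.robin (-(k * GG k / R)) ≤ ((-(k / R) ^ 2 - η : ℝ) : EReal) := by
  obtain ⟨B, u, hBh, hK, hu, hu1, hEB⟩ := disc_energy hR hk
  have hsub : D.carrier ⊆ ball 0 R := by
    rw [← hD]
    exact subset_convexHull ℝ _
  have hsubK : D.carrier ⊆ B.K := by
    rw [hK]
    exact hsub.trans ball_subset_closedBall
  obtain ⟨U, hU⟩ := (isCompact_closedBall (0 : E 2) R).exists_bound_of_continuousOn
    (hu.continuous.pow 2).continuousOn
  have hU' : ∀ x ∈ B.K, u x ^ 2 ≤ U := by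
    intro x hx
    rw [hK] at hx
    exact (le_abs_self _).trans (hU x hx)
  have hG0 : 0 < GG k := Pool.Agent.H.MP_1b807b_an.F_pos 1 hk
  have hG1 : GG k < 1 := Pool.Agent.H.MP_1b807b_an.F_lt_one 1 k
  have hβ : 0 ≤ k * GG k / R := by positivity
  have hβk : k * GG k / R < k / R := by
    apply div_lt_div_of_pos_right _ hR
    nlinarith
  have hne : D.carrier.Nonempty := D.isConnected.nonempty
  have hsupp : ∀ θ, B.h θ ≤ supp D.carrier θ + 0 := by
    intro θ
    rw [hBh, add_zero, ← supp_convexHull D.isBounded hne, hD]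
    by_contra hc
    rw [not_le] at hc
    set S := supp (ball (0 : E 2) R) θ with hS
    have ht0 : 0 ≤ (max 0 S + R) / 2 := by
      have := le_max_left 0 S
      linarith
    have htR : (max 0 S + R) / 2 < R := by
      have := max_lt hR hc
      linarith
    have htS : S < (max 0 S + R) / 2 := by
      have := le_max_right 0 S
      have := max_lt hR hc
      linarith
    have hmem : ((max 0 S + R) / 2) • ev θ ∈ ball (0 : E 2) R := by
      rw [mem_ball_zero_iff, norm_smul, norm_ev, mul_one, Real.norm_eq_abs, abs_of_nonneg ht0]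
      exact htR
    have h1 := le_supp (R := R) (fun x hx => (mem_ball_zero_iff.1 hx).le) hmem θ
    rw [sp_smul, sp_ev, sub_self, Real.cos_zero, mul_one] at h1
    exact absurd htS (not_lt.2 h1)
  have hen := energy_le D B (fun θ => by rw [hBh]; exact hR) hsubK hu hU' (k := k / R)
    (β := k * GG k / R) (δ := 0) hβ hβk.le hsupp
  rw [hEB] at hen
  have hcont : Continuous fun x => u x ^ 2 := hu.continuous.pow 2
  have hint : IntegrableOn (fun x => u x ^ 2) (closedBall (0 : E 2) R) :=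
    hcont.continuousOn.integrableOn_compact (isCompact_closedBall 0 R)
  have hge : ∀ x, 1 ≤ u x ^ 2 := fun x => one_le_pow₀ (hu1 x)
  have hpos : ∀ S : Set (E 2), MeasurableSet S → S ⊆ closedBall 0 R → volume S ≠ 0 →
      0 < ∫ x in S, u x ^ 2 := by
    intro S hS hSR hS0
    have hfin : volume S < ⊤ :=
      (measure_mono hSR).trans_lt (isCompact_closedBall (0 : E 2) R).measure_lt_top
    have h1 : volume.real S ≤ ∫ x in S, u x ^ 2 := by
      have h2 : ∫ x in S, (1 : ℝ) ≤ ∫ x in S, u x ^ 2 :=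
        setIntegral_mono (integrableOn_const hfin.ne) (hint.mono_set hSR) fun x => hge x
      rw [setIntegral_const, smul_eq_mul, mul_one] at h2
      exact h2
    have h3 : 0 < volume.real S := ENNReal.toReal_pos hS0 hfin.ne
    linarith
  have hA : 0 < ∫ x in D.carrier, u x ^ 2 :=
    hpos _ D.isOpen.measurableSet (hsub.trans ball_subset_closedBall)
      (D.isOpen.measure_pos volume hne).ne'
  have hC : 0 < ∫ x in B.K \ D.carrier, u x ^ 2 := by
    rw [hK]
    refine hpos _ (isClosed_closedBall.measurableSet.diff D.isOpen.measurableSet)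
      diff_subset fun h0 => hv ?_
    exact measure_mono_null (Set.sdiff_subset_sdiff_left ball_subset_closedBall) h0
  have hc : 0 < (k / R) ^ 2 - (k * GG k / R) ^ 2 := by
    have := pow_lt_pow_left₀ hβk hβ two_ne_zero
    linarith
  refine ⟨((k / R) ^ 2 - (k * GG k / R) ^ 2) * (∫ x in B.K \ D.carrier, u x ^ 2) /
    ∫ x in D.carrier, u x ^ 2, by positivity, ?_⟩
  have hle : D.robin (-(k * GG k / R)) ≤ (D.rayleigh (-(k * GG k / R)) u : EReal) :=
    sInf_le ⟨u, hu, hA, rfl⟩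
  refine hle.trans (EReal.coe_le_coe_iff.2 ?_)
  unfold Domain.rayleigh
  rw [div_le_iff₀ hA]
  have e1 : (-(k / R) ^ 2 - ((k / R) ^ 2 - (k * GG k / R) ^ 2) *
      (∫ x in B.K \ D.carrier, u x ^ 2) / ∫ x in D.carrier, u x ^ 2) *
      (∫ x in D.carrier, u x ^ 2) = -(k / R) ^ 2 * (∫ x in D.carrier, u x ^ 2) -
      ((k / R) ^ 2 - (k * GG k / R) ^ 2) * (∫ x in B.K \ D.carrier, u x ^ 2) := by
    field_simp
  rw [e1]
  linarith

end Pool.Agent.RC
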