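import Pool.Agent.H.MP_1b807b_an.L.Whi

/-! MP_1b807b_an, hull theorem, module Ener: energy comparison -/

set_option autoImplicit false

namespace Pool.Agent.RC

open MeasureTheory Metric Set
open Pool.Agent.RG
open scoped RealInnerProductSpace

private theorem en_norm_fderiv_sq {u : E 2 → ℝ} (hu : ContDiff ℝ 1 u) (x : E 2) :
    ‖fderiv ℝ (fun x => u x ^ 2) x‖ = 2 * |u x| * ‖fderiv ℝ u x‖ := by
  have hd : HasFDerivAt u (fderiv ℝ u x) x := ((hu.differentiable one_ne_zero) x).hasFDerivAt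
  have h1 := (hd.pow 2).fderiv
  have h2 : fderiv ℝ (fun x => u x ^ 2) x = (2 * u x) • fderiv ℝ u x := by
    rw [h1]
    simp
  rw [h2, norm_smul, Real.norm_eq_abs, abs_mul, abs_two]

theorem energy_le (D : Domain 2) (B : Body) (h0 : ∀ θ, 0 < B.h θ) (hD : D.carrier ⊆ B.K)
    {u : E 2 → ℝ} (hu : ContDiff ℝ 1 u) {U : ℝ} (hU : ∀ x ∈ B.K, u x ^ 2 ≤ U)
    {k β δ : ℝ} (hβ : 0 ≤ β) (hβk : β ≤ k) (hδ : ∀ θ, B.h θ ≤ supp D.carrier θ + δ) :
    (∫ x in D.carrier, ‖fderiv ℝ u x‖ ^ 2) - β * (∫ x, u x ^ 2 ∂D.surface) +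
      k ^ 2 * (∫ x in D.carrier, u x ^ 2) +
      (k ^ 2 - β ^ 2) * (∫ x in B.K \ D.carrier, u x ^ 2) ≤
      B.EB k β u + β * (2 * Real.pi * U * δ) := by
  have hmK := B.measurableSet_K
  have hmD : MeasurableSet D.carrier := D.isOpen.measurableSet
  have hcK := B.isCompact_K
  have hcu := hu.continuous
  have hcd : Continuous (fderiv ℝ u) := hu.continuous_fderiv one_ne_zero
  have hint : ∀ {f : E 2 → ℝ}, Continuous f → IntegrableOn f B.K := fun hf =>
    hf.continuousOn.integrableOn_compact hcK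
  have hintD : ∀ {f : E 2 → ℝ}, Continuous f → IntegrableOn f D.carrier := fun hf =>
    (hint hf).mono_set hD
  have hintd : ∀ {f : E 2 → ℝ}, Continuous f → IntegrableOn f (B.K \ D.carrier) := fun hf =>
    (hint hf).mono_set sdiff_subset
  have hw : ContDiff ℝ 1 (fun x => u x ^ 2) := hu.pow 2
  have H := hull_ge D B h0 hD hw (fun x => sq_nonneg _) hU hδ
  have hder : (∫ x in B.K \ D.carrier, ‖fderiv ℝ (fun x => u x ^ 2) x‖) =
      ∫ x in B.K \ D.carrier, 2 * |u x| * ‖fderiv ℝ u x‖ :=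
    integral_congr_ae (Filter.Eventually.of_forall fun x => en_norm_fderiv_sq hu x)
  rw [hder] at H
  have hc1 : Continuous fun x => ‖fderiv ℝ u x‖ ^ 2 := (hcd.norm.pow 2)
  have hc2 : Continuous fun x => u x ^ 2 := hcu.pow 2
  have hc3 : Continuous fun x => ‖fderiv ℝ u x‖ ^ 2 + k ^ 2 * u x ^ 2 :=
    hc1.add (continuous_const.mul hc2)
  have hc4 : Continuous fun x => 2 * |u x| * ‖fderiv ℝ u x‖ :=
    (continuous_const.mul hcu.abs).mul hcd.norm
  -- pointwise inequality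
  have hY : β * (∫ x in B.K \ D.carrier, 2 * |u x| * ‖fderiv ℝ u x‖) ≤
      (∫ x in B.K \ D.carrier, ‖fderiv ℝ u x‖ ^ 2) +
        β ^ 2 * ∫ x in B.K \ D.carrier, u x ^ 2 := by
    rw [← integral_const_mul, ← integral_const_mul,
      ← integral_add (hintd hc1) ((hintd hc2).const_mul _)]
    refine integral_mono ((hintd hc4).const_mul _) ((hintd hc1).add ((hintd hc2).const_mul _)) ?_
    intro x
    have h1 : |u x| ^ 2 = u x ^ 2 := sq_abs _
    show β * (2 * |u x| * ‖fderiv ℝ u x‖) ≤ ‖fderiv ℝ u x‖ ^ 2 + β ^ 2 * u x ^ 2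
    nlinarith [sq_nonneg (‖fderiv ℝ u x‖ - β * |u x|)]
  -- splitting the integral over the body
  have hsplit := setIntegral_sdiff hmD (hint hc3) hD
  have e1 : (∫ x in D.carrier, (‖fderiv ℝ u x‖ ^ 2 + k ^ 2 * u x ^ 2)) =
      (∫ x in D.carrier, ‖fderiv ℝ u x‖ ^ 2) + k ^ 2 * ∫ x in D.carrier, u x ^ 2 := by
    rw [integral_add (hintD hc1) ((hintD hc2).const_mul _), integral_const_mul]
  have e2 : (∫ x in B.K \ D.carrier, (‖fderiv ℝ u x‖ ^ 2 + k ^ 2 * u x ^ 2)) =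
      (∫ x in B.K \ D.carrier, ‖fderiv ℝ u x‖ ^ 2) +
        k ^ 2 * ∫ x in B.K \ D.carrier, u x ^ 2 := by
    rw [integral_add (hintd hc1) ((hintd hc2).const_mul _), integral_const_mul]
  have H' := mul_le_mul_of_nonneg_left H hβ
  unfold Body.EB
  rw [e1, e2] at hsplit
  nlinarith [H', hY, hsplit]

end Pool.Agent.RC
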