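import Pool.Agent.H.MP_1b807b_an.L.Out
import Pool.Agent.H.MP_1b807b_an.C.Unique

/-! MP_1b807b_an, hull theorem, module Gap: the hull is not a disc -/

set_option autoImplicit false

namespace Pool.Agent.RC

open MeasureTheory Metric Set
open Pool.Agent.RG
open scoped RealInnerProductSpace Pointwise

theorem hull_gap {Ω : Set (E 2)} (ho : IsOpen Ω) (hb : Bornology.IsBounded Ω)
    (h0 : (0 : E 2) ∈ Ω) {R : ℝ} (hR : 0 < R)
    (hv : volume (convexHull ℝ Ω) = volume (ball (0 : E 2) R))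
    (hne : ∀ x₀, convexHull ℝ Ω ≠ ball x₀ R) :
    ∃ τ > (0 : ℝ), 2 * Real.pi * R + τ ≤ ∫ θ in (0 : ℝ)..2 * Real.pi, supp Ω θ := by
  obtain ⟨M, hMpos, hM⟩ := hb.exists_pos_norm_le
  have hne0 : Ω.Nonempty := ⟨0, h0⟩
  have hbc : Bornology.IsBounded (convexHull ℝ Ω) := isBounded_convexHull.2 hb
  have hoc : IsOpen (convexHull ℝ Ω) := ho.convexHull
  have hM' : ∀ x ∈ convexHull ℝ Ω, ‖x‖ ≤ M := by
    intro x hx
    have h1 : convexHull ℝ Ω ⊆ closedBall (0 : E 2) M :=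
      convexHull_min (fun y hy => mem_closedBall_zero_iff.2 (hM y hy)) (convex_closedBall 0 M)
    exact mem_closedBall_zero_iff.1 (h1 hx)
  have h0c : (0 : E 2) ∈ convexHull ℝ Ω := subset_convexHull ℝ Ω h0
  have hπ := Real.pi_pos
  obtain ⟨τ, hτ, r₀, hr₀R, hr₀, hgap⟩ := len_gap hoc hbc hR hv hne
  -- the ratio `ρ < 1`
  obtain ⟨ρ, hρ1, hρ0, hρ2⟩ : ∃ ρ : ℝ, ρ < 1 ∧ r₀ ≤ ρ * R ∧
      2 * Real.pi + τ / 2 ≤ (2 * Real.pi + τ) * ρ := by
    refine ⟨max (r₀ / R) ((2 * Real.pi + τ / 2) / (2 * Real.pi + τ)), max_lt ?_ ?_, ?_, ?_⟩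
    · exact (div_lt_one hR).2 hr₀R
    · rw [div_lt_one (by positivity)]
      linarith
    · rw [← div_le_iff₀ hR]
      exact le_max_left _ _
    · rw [← div_le_iff₀' (by positivity)]
      exact le_max_right _ _
  have hρpos : 0 < ρ := by
    by_contra h1
    push Not at h1
    nlinarith
  have hρsq : ρ ^ 2 < 1 := by nlinarith
  have hδpos : 0 < (1 - ρ ^ 2) * (Real.pi * R ^ 2) := by
    have h1 : 0 < 1 - ρ ^ 2 := by linarith
    positivity
  obtain ⟨B, hBh, hBK, hBv⟩ := exists_body (convex_convexHull ℝ Ω) hoc hbc h0c hδpos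
  have hball : volume.real (ball (0 : E 2) R) = Real.pi * R ^ 2 := by
    rw [Measure.real, EuclideanSpace.volume_ball_fin_two]
    rw [ENNReal.toReal_mul, ENNReal.toReal_pow, ENNReal.toReal_ofReal hR.le]
    simp [mul_comm, Real.pi_pos.le]
  have hvD : volume.real (convexHull ℝ Ω) = Real.pi * R ^ 2 := by
    rw [Measure.real, hv, ← Measure.real, hball]
  have hfin : volume (convexHull ℝ Ω) ≠ ⊤ := hbc.measure_lt_top.ne
  have hKm : MeasurableSet B.K := B.isCompact_K.isClosed.measurableSet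
  have hvK : volume.real (convexHull ℝ Ω \ B.K) = Real.pi * R ^ 2 - B.area := by
    rw [measureReal_sdiff hBK hKm hfin, hvD, B.volume_K hBh]
  have hAlow : Real.pi * (ρ * R) ^ 2 ≤ B.area := by nlinarith
  have hApos : 0 ≤ B.area := le_trans (by positivity) hAlow
  obtain ⟨r, hr⟩ : ∃ r, r = Real.sqrt (B.area / Real.pi) := ⟨_, rfl⟩
  have hr2 : r ^ 2 = B.area / Real.pi := by
    rw [hr]
    exact Real.sq_sqrt (div_nonneg hApos hπ.le)
  have hrρ : ρ * R ≤ r := by
    rw [hr]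
    apply Real.le_sqrt_of_sq_le
    rw [le_div_iff₀ hπ]
    linarith
  have hr₀r : r₀ ≤ r := hρ0.trans hrρ
  have hrpos : 0 < r := by linarith
  have hcpos : 0 < 1 / r := by positivity
  obtain ⟨B', hB'h, hB'K, hB'A⟩ := exists_scaled_body B hcpos
  have hA' : B'.area = Real.pi := by
    rw [hB'A, show B.area = r ^ 2 * Real.pi by rw [hr2]; field_simp]
    field_simp
  have hB'pos : ∀ θ, 0 < B'.h θ := fun θ => by rw [hB'h]; exact mul_pos hcpos (hBh θ)
  have h1 := hgap r hr₀r B' hA' hB'pos (by rw [hB'K]; exact image_mono hBK)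
  have h2 : B'.len = 1 / r * B.len := by
    unfold Body.len
    simp only [hB'h]
    exact intervalIntegral.integral_const_mul _ _
  have h3 : B.len ≤ ∫ θ in (0 : ℝ)..2 * Real.pi, supp Ω θ := by
    unfold Body.len
    refine intervalIntegral.integral_mono_on (by positivity)
      (B.continuous_h.intervalIntegrable _ _)
      ((supp_continuous hne0 hM).intervalIntegrable _ _) fun θ _ => ?_
    rw [← supp_convexHull hb hne0, ← B.sp_y θ]
    exact le_supp hM' (hBK (B.y_mem θ)) θ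
  have h4 : (2 * Real.pi + τ) * r ≤ B.len := by
    rw [h2, one_div, ← div_eq_inv_mul, le_div_iff₀ hrpos] at h1
    exact h1
  refine ⟨τ * R / 2, by positivity, ?_⟩
  have h5 : (2 * Real.pi + τ) * (ρ * R) ≤ (2 * Real.pi + τ) * r :=
    mul_le_mul_of_nonneg_left hrρ (by positivity)
  have h6 : (2 * Real.pi + τ / 2) * R ≤ (2 * Real.pi + τ) * ρ * R :=
    mul_le_mul_of_nonneg_right hρ2 hR.le
  calc 2 * Real.pi * R + τ * R / 2 = (2 * Real.pi + τ / 2) * R := by ring
    _ ≤ (2 * Real.pi + τ) * ρ * R := h6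
    _ = (2 * Real.pi + τ) * (ρ * R) := by ring
    _ ≤ _ := h5.trans (h4.trans h3)

end Pool.Agent.RC
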