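import Pool.Agent.H.MP_1b807b_an.L.BDiv
import Pool.Agent.H.MP_1b807b_an.G.Moll

/-! MP_1b807b_an, hull theorem, module Lim: from test pairs to `C¹` functions on a body -/

set_option autoImplicit false

namespace Pool.Agent.RC

open MeasureTheory Metric Set Filter
open Pool.Agent.RG
open scoped RealInnerProductSpace Topology NNReal ENNReal

private theorem lim_tr_add (A B : E 2 →L[ℝ] E 2) : tr (A + B) = tr A + tr B := by
  unfold tr
  rw [← Finset.sum_add_distrib]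
  rfl

private theorem lim_tr_smul (c : ℝ) (A : E 2 →L[ℝ] E 2) : tr (c • A) = c * tr A := by
  unfold tr
  rw [Finset.mul_sum]
  rfl

private theorem lim_tr_smulRight (L : E 2 →L[ℝ] ℝ) (v : E 2) : tr (L.smulRight v) = L v := by
  unfold tr
  have h1 : v = ∑ i : Fin 2, v i • EuclideanSpace.single i (1 : ℝ) := by
    ext j
    fin_cases j <;> simp
  calc ∑ i : Fin 2, (L.smulRight v (EuclideanSpace.single i 1)) i
      = ∑ i : Fin 2, v i * L (EuclideanSpace.single i 1) := by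
        refine Finset.sum_congr rfl (fun i _ => ?_)
        simp [ContinuousLinearMap.smulRight_apply, mul_comm]
    _ = L (∑ i : Fin 2, v i • EuclideanSpace.single i (1 : ℝ)) := by
        rw [map_sum]
        refine Finset.sum_congr rfl (fun i _ => ?_)
        rw [map_smul, smul_eq_mul]
    _ = L v := by rw [← h1]

private theorem lim_tr_cont : Continuous (fun A : E 2 →L[ℝ] E 2 => tr A) := by
  unfold tr
  refine continuous_finsetSum _ (fun i _ => ?_)
  have h1 : Continuous (fun A : E 2 →L[ℝ] E 2 => A (EuclideanSpace.single i (1 : ℝ))) :=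
    (ContinuousLinearMap.apply ℝ (E 2) (EuclideanSpace.single i (1 : ℝ))).continuous
  exact (EuclideanSpace.proj (𝕜 := ℝ) i).continuous.comp h1

/-- smooth approximation of a scalar Lipschitz function with values in `[-1, 1]` -/
private theorem lim_smooth {v : E 2 → ℝ} {K : ℝ≥0} (hv : LipschitzWith K v)
    (hv1 : ∀ x, |v x| ≤ 1) :
    ∃ (w : ℕ → E 2 → ℝ) (R : ℝ), (∀ j, ContDiff ℝ 1 (w j)) ∧ (∀ j x, |w j x| ≤ 1) ∧
      (∀ j x, ‖fderiv ℝ (w j) x‖ ≤ R) ∧
      (∀ x, Tendsto (fun j => w j x) atTop (𝓝 (v x))) ∧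
      ∀ᵐ x : E 2, Tendsto (fun j => fderiv ℝ (w j) x) atTop (𝓝 (fderiv ℝ v x)) := by
  set e0 : E 2 := EuclideanSpace.single 0 1 with he0
  have hne : ‖e0‖ = 1 := by simp [he0]
  set T : E 2 → E 2 := fun x => v x • e0 with hT
  have hTL : LipschitzWith K T := by
    refine LipschitzWith.of_dist_le_mul fun x y => ?_
    rw [hT]
    simp only
    rw [dist_eq_norm, ← sub_smul, norm_smul, hne, mul_one, ← dist_eq_norm]
    exact hv.dist_le_mul x y
  have hTR : ∀ x, ‖T x‖ ≤ 1 := by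
    intro x
    rw [hT]
    simp only
    rw [norm_smul, hne, mul_one, Real.norm_eq_abs]
    exact hv1 x
  obtain ⟨S', hS1, hS2, hS3, hS4, hS5⟩ := exists_smooth hTL hTR
  set P : E 2 →L[ℝ] ℝ := EuclideanSpace.proj (𝕜 := ℝ) (0 : Fin 2) with hP
  have hPe : P e0 = 1 := by simp [hP, he0]
  have hfd : ∀ j x, fderiv ℝ (fun x => P (S' j x)) x = P.comp (fderiv ℝ (S' j) x) := by
    intro j x
    exact (P.hasFDerivAt.comp x (((hS1 j).differentiable one_ne_zero) x).hasFDerivAt).fderiv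
  refine ⟨fun j x => P (S' j x), ‖P‖ * K, fun j => P.contDiff.comp (hS1 j),
    fun j x => ?_, fun j x => ?_, fun x => ?_, ?_⟩
  · have h1 : ‖(S' j x) 0‖ ≤ ‖S' j x‖ := PiLp.norm_apply_le (S' j x) 0
    rw [Real.norm_eq_abs] at h1
    exact h1.trans (hS2 j x)
  · rw [hfd]
    exact (ContinuousLinearMap.opNorm_comp_le _ _).trans
      (mul_le_mul_of_nonneg_left (hS3 j x) (norm_nonneg _))
  · have h1 : v x = P (T x) := by
      rw [hT]
      simp only
      rw [map_smul, hPe, smul_eq_mul, mul_one]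
    rw [h1]
    exact (P.continuous.tendsto _).comp (hS4 x)
  · filter_upwards [hS5, hv.ae_differentiableAt] with x hx hdx
    have h2 : HasFDerivAt T ((fderiv ℝ v x).smulRight e0) x := hdx.hasFDerivAt.smul_const e0
    have h5 : fderiv ℝ v x = P.comp (fderiv ℝ T x) := by
      rw [h2.fderiv]
      ext w
      simp [hPe]
    rw [h5]
    simp_rw [hfd]
    have hc : Continuous fun A : E 2 →L[ℝ] E 2 => P.comp A :=
      (ContinuousLinearMap.compL ℝ (E 2) (E 2) ℝ P).continuous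
    exact (hc.tendsto _).comp hx

/-- the pointwise energy identity -/
private theorem lim_energy {V w : E 2 → ℝ} {Z : E 2 → E 2} (hV : ContDiff ℝ 1 V)
    (hZ : ContDiff ℝ 1 Z) (hw : ContDiff ℝ 1 w)
    (hVZ : ∀ x v, ⟪Z x, v⟫ = V x * fderiv ℝ V x v) (x : E 2) :
    ‖fderiv ℝ (fun x => V x * w x) x‖ ^ 2 = V x ^ 2 * ‖fderiv ℝ w x‖ ^ 2 +
      divg (fun x => w x ^ 2 • Z x) x - (divg Z x - ‖fderiv ℝ V x‖ ^ 2) * w x ^ 2 := by
  have dV : HasFDerivAt V (fderiv ℝ V x) x := ((hV.differentiable one_ne_zero) x).hasFDerivAt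
  have dw : HasFDerivAt w (fderiv ℝ w x) x := ((hw.differentiable one_ne_zero) x).hasFDerivAt
  have dZ : HasFDerivAt Z (fderiv ℝ Z x) x := ((hZ.differentiable one_ne_zero) x).hasFDerivAt
  have h1 : fderiv ℝ (fun x => V x * w x) x = V x • fderiv ℝ w x + w x • fderiv ℝ V x :=
    (dV.mul dw).fderiv
  have h2 : divg (fun x => w x ^ 2 • Z x) x = w x ^ 2 * divg Z x + 2 * w x * fderiv ℝ w x (Z x) := by
    have h3 : HasFDerivAt (fun x => w x ^ 2) ((2 * w x) • fderiv ℝ w x) x := by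
      have h := dw.pow 2
      simpa using h
    have h4 : HasFDerivAt (fun x => w x ^ 2 • Z x) (w x ^ 2 • fderiv ℝ Z x +
        ((2 * w x) • fderiv ℝ w x).smulRight (Z x)) x := h3.smul dZ
    unfold divg
    rw [h4.fderiv, lim_tr_add, lim_tr_smul, lim_tr_smulRight]
    simp
  -- gradients
  obtain ⟨a, ha⟩ : ∃ a : E 2, ∀ y, fderiv ℝ w x y = ⟪a, y⟫ :=
    ⟨(InnerProductSpace.toDual ℝ (E 2)).symm (fderiv ℝ w x), fun y => by
      rw [InnerProductSpace.toDual_symm_apply]⟩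
  obtain ⟨b, hb⟩ : ∃ b : E 2, ∀ y, fderiv ℝ V x y = ⟪b, y⟫ :=
    ⟨(InnerProductSpace.toDual ℝ (E 2)).symm (fderiv ℝ V x), fun y => by
      rw [InnerProductSpace.toDual_symm_apply]⟩
  have ha' : fderiv ℝ w x = innerSL ℝ a := by ext1 y; rw [ha]; rfl
  have hb' : fderiv ℝ V x = innerSL ℝ b := by ext1 y; rw [hb]; rfl
  have hZb : Z x = V x • b := by
    refine ext_inner_right ℝ fun y => ?_
    rw [hVZ, hb, real_inner_smul_left]
  have h5 : V x • fderiv ℝ w x + w x • fderiv ℝ V x = innerSL ℝ (V x • a + w x • b) := by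
    ext1 y
    rw [ha', hb']
    simp [inner_add_left, real_inner_smul_left]
  rw [h1, h2, h5, innerSL_apply_norm, ha', hb', innerSL_apply_norm, innerSL_apply_norm,
    innerSL_apply_apply, hZb, real_inner_smul_right, norm_add_sq_real, norm_smul, norm_smul,
    real_inner_smul_left, real_inner_smul_right, mul_pow, mul_pow, Real.norm_eq_abs,
    Real.norm_eq_abs, sq_abs, sq_abs]
  ring

/-- the gradient of `f ∘ depth` inside the body -/
private theorem lim_grad {B : Body} {k β C d c₀ ε : ℝ} {V : E 2 → ℝ}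
    {Z : E 2 → E 2} {f M : ℝ → ℝ} (hT : IsTest B k β C d c₀ ε V Z f M) {x : E 2}
    (h : 0 < B.depth x) : ‖fderiv ℝ (fun x => f (B.depth x)) x‖ ^ 2 ≤ M (B.depth x) ^ 2 := by
  have hM := hT.M0 (B.depth x)
  have h2 : ‖fderiv ℝ (fun x => f (B.depth x)) x‖ ≤ M (B.depth x) := by
    refine le_of_forall_pos_le_add fun e he => ?_
    obtain ⟨η, hη, hs⟩ := hT.slope _ h e he
    refine norm_fderiv_le_of_lip' ℝ (by linarith [hM.1]) ?_
    filter_upwards [B.continuous_depth.continuousAt.eventually (ball_mem_nhds _ hη)] with z hz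
    rw [Real.dist_eq] at hz
    have h3 := hs (B.depth z) (B.depth x) hz (by simpa using hη)
    rw [Real.norm_eq_abs]
    refine h3.trans ?_
    exact mul_le_mul_of_nonneg_left (B.depth_lip z x) (by linarith [hM.1])
  exact pow_le_pow_left₀ (norm_nonneg _) h2 2

theorem exists_c1 (B : Body) (h0 : ∀ θ, 0 < B.h θ) {k β C d c₀ ε : ℝ} {V : E 2 → ℝ}
    {Z : E 2 → E 2} {f M : ℝ → ℝ} (hC : 0 ≤ C) (hβ : 0 ≤ β)
    (hT : IsTest B k β C d c₀ ε V Z f M) (hd : B.K ⊆ closedBall 0 d) (hc₀ : 0 < c₀)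
    {e : ℝ} (he : 0 < e) :
    ∃ u : E 2 → ℝ, ContDiff ℝ 1 u ∧ (∀ x ∈ B.K, u x ^ 2 ≤ C ^ 2) ∧
      c₀ / 2 ≤ (∫ x in B.K, u x ^ 2) ∧ B.EB k β u ≤ ε + e := by
  have hKc := B.isCompact_K
  have hmK := B.measurableSet_K
  have hfin : IsFiniteMeasure (volume.restrict B.K) :=
    ⟨by rw [Measure.restrict_apply_univ]; exact hKc.measure_lt_top⟩
  have hmem : ∀ᵐ x ∂(volume.restrict B.K), x ∈ B.K := ae_restrict_mem hmK
  have hmemd : ∀ x ∈ B.K, ‖x‖ ≤ d := fun x hx => by
    have := hd hx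
    rwa [mem_closedBall, dist_zero_right] at this
  have cdep : Continuous B.depth := B.continuous_depth
  have cf : Continuous f := by
    have : LipschitzWith ⟨C, hC⟩ f := LipschitzWith.of_dist_le_mul fun s t => by
      rw [Real.dist_eq, Real.dist_eq]
      exact hT.fl s t
    exact this.continuous
  set v : E 2 → ℝ := fun x => f (B.depth x) with hv
  have cv : Continuous v := cf.comp cdep
  have hvLip : LipschitzWith ⟨C, hC⟩ v := LipschitzWith.of_dist_le_mul fun x x' => by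
    rw [Real.dist_eq, dist_eq_norm]
    exact (hT.fl _ _).trans (mul_le_mul_of_nonneg_left (B.depth_lip x x') hC)
  have hv01 : ∀ x, |v x| ≤ 1 := fun x => by
    have h := hT.f0 (B.depth x)
    rw [abs_le]
    exact ⟨by linarith [h.1], h.2⟩
  have hv2 : ∀ x, v x ^ 2 ≤ 1 := fun x => by
    have h := hT.f0 (B.depth x)
    exact pow_le_one₀ h.1 h.2
  have hvy : ∀ φ, v (B.y φ) = 1 := fun φ => hT.f1 _ (B.depth_y φ).le
  obtain ⟨w, R, hw1, hwR, hwR', hwt, hwd⟩ := lim_smooth hvLip hv01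
  have hR0 : 0 ≤ R := (norm_nonneg _).trans (hwR' 0 0)
  have hw2 : ∀ j x, w j x ^ 2 ≤ 1 := by
    intro j x
    rw [← sq_abs]
    exact pow_le_one₀ (abs_nonneg _) (hwR j x)
  -- continuity and bounds
  have cV : Continuous V := hT.V1.continuous
  have cV' : Continuous (fderiv ℝ V) := hT.V1.continuous_fderiv one_ne_zero
  have cZ : Continuous Z := hT.Z1.continuous
  have cdZ : Continuous (divg Z) := lim_tr_cont.comp (hT.Z1.continuous_fderiv one_ne_zero)
  have cE : Continuous fun x => divg Z x - ‖fderiv ℝ V x‖ ^ 2 := cdZ.sub (cV'.norm.pow 2)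
  have cy : Continuous B.y := B.continuous_y
  have cρ : Continuous B.ρ := B.continuous_ρ
  have cN : Continuous fun φ => ⟪Z (B.y φ), ev φ⟫ * B.ρ φ :=
    ((cZ.comp cy).inner continuous_ev).mul cρ
  have cVy : Continuous fun φ => V (B.y φ) ^ 2 * B.ρ φ := ((cV.comp cy).pow 2).mul cρ
  obtain ⟨C2, hC2⟩ := hKc.exists_bound_of_continuousOn
    (f := fun x => divg Z x - ‖fderiv ℝ V x‖ ^ 2) cE.continuousOn
  have hV2 : ∀ x ∈ B.K, V x ^ 2 ≤ C ^ 2 := by
    intro x hx
    rw [← sq_abs]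
    exact pow_le_pow_left₀ (abs_nonneg _) (hT.bV x (hmemd x hx)) 2
  have intK : ∀ {g : E 2 → ℝ}, Continuous g → IntegrableOn g B.K := fun hg =>
    hg.continuousOn.integrableOn_compact hKc
  -- the five limits
  have l1 : Tendsto (fun j => ∫ x in B.K, V x ^ 2 * ‖fderiv ℝ (w j) x‖ ^ 2) atTop
      (𝓝 (∫ x in B.K, V x ^ 2 * ‖fderiv ℝ v x‖ ^ 2)) := by
    refine tendsto_integral_of_dominated_convergence (fun _ => C ^ 2 * R ^ 2) (fun j => ?_)
      (integrable_const _) (fun j => ?_) ?_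
    · exact ((cV.pow 2).mul
        (((hw1 j).continuous_fderiv one_ne_zero).norm.pow 2)).aestronglyMeasurable
    · filter_upwards [hmem] with x hx
      rw [Real.norm_of_nonneg (by positivity)]
      exact mul_le_mul (hV2 x hx)
        (pow_le_pow_left₀ (norm_nonneg _) (hwR' j x) 2) (by positivity) (by positivity)
    · filter_upwards [ae_restrict_of_ae hwd] with x hx
      exact (hx.norm.pow 2).const_mul _
  have l2 : Tendsto (fun j => ∫ φ in (0 : ℝ)..2 * Real.pi,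
        w j (B.y φ) ^ 2 * (⟪Z (B.y φ), ev φ⟫ * B.ρ φ)) atTop
      (𝓝 (∫ φ in (0 : ℝ)..2 * Real.pi, ⟪Z (B.y φ), ev φ⟫ * B.ρ φ)) := by
    refine intervalIntegral.tendsto_integral_filter_of_dominated_convergence
      (fun φ => ‖⟪Z (B.y φ), ev φ⟫ * B.ρ φ‖) (Eventually.of_forall fun j => ?_)
      (Eventually.of_forall fun j => Eventually.of_forall fun φ _ => ?_)
      (cN.norm.intervalIntegrable _ _) (Eventually.of_forall fun φ _ => ?_)
    · exact ((((hw1 j).continuous.comp cy).pow 2).mul cN).aestronglyMeasurable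
    · rw [norm_mul, Real.norm_of_nonneg (by positivity : (0 : ℝ) ≤ w j (B.y φ) ^ 2)]
      exact mul_le_of_le_one_left (norm_nonneg _) (hw2 j _)
    · have h1 := ((hwt (B.y φ)).pow 2).mul_const (⟪Z (B.y φ), ev φ⟫ * B.ρ φ)
      rwa [hvy, one_pow, one_mul] at h1
  have l3 : Tendsto (fun j => ∫ x in B.K, (divg Z x - ‖fderiv ℝ V x‖ ^ 2) * w j x ^ 2) atTop
      (𝓝 (∫ x in B.K, (divg Z x - ‖fderiv ℝ V x‖ ^ 2) * v x ^ 2)) := by
    refine tendsto_integral_of_dominated_convergence (fun _ => C2) (fun j => ?_)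
      (integrable_const _) (fun j => ?_) ?_
    · exact (cE.mul ((hw1 j).continuous.pow 2)).aestronglyMeasurable
    · filter_upwards [hmem] with x hx
      rw [norm_mul, Real.norm_of_nonneg (by positivity : (0 : ℝ) ≤ w j x ^ 2)]
      exact (mul_le_of_le_one_right (norm_nonneg _) (hw2 j x)).trans (hC2 x hx)
    · exact Eventually.of_forall fun x => ((hwt x).pow 2).const_mul _
  have l4 : Tendsto (fun j => ∫ φ in (0 : ℝ)..2 * Real.pi, (V (B.y φ) * w j (B.y φ)) ^ 2 * B.ρ φ)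
      atTop (𝓝 (∫ φ in (0 : ℝ)..2 * Real.pi, V (B.y φ) ^ 2 * B.ρ φ)) := by
    refine intervalIntegral.tendsto_integral_filter_of_dominated_convergence
      (fun φ => ‖V (B.y φ) ^ 2 * B.ρ φ‖) (Eventually.of_forall fun j => ?_)
      (Eventually.of_forall fun j => Eventually.of_forall fun φ _ => ?_)
      (cVy.norm.intervalIntegrable _ _) (Eventually.of_forall fun φ _ => ?_)
    · exact ((((cV.comp cy).mul ((hw1 j).continuous.comp cy)).pow 2).mul cρ).aestronglyMeasurable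
    · have e1 : (V (B.y φ) * w j (B.y φ)) ^ 2 * B.ρ φ =
          w j (B.y φ) ^ 2 * (V (B.y φ) ^ 2 * B.ρ φ) := by ring
      rw [e1, norm_mul, Real.norm_of_nonneg (by positivity : (0 : ℝ) ≤ w j (B.y φ) ^ 2)]
      exact mul_le_of_le_one_left (norm_nonneg _) (hw2 j _)
    · have h1 := (((hwt (B.y φ)).const_mul (V (B.y φ))).pow 2).mul_const (B.ρ φ)
      rwa [hvy, mul_one] at h1
  have l5 : Tendsto (fun j => ∫ x in B.K, (V x * w j x) ^ 2) atTop
      (𝓝 (∫ x in B.K, V x ^ 2 * v x ^ 2)) := by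
    refine tendsto_integral_of_dominated_convergence (fun _ => C ^ 2) (fun j => ?_)
      (integrable_const _) (fun j => ?_) ?_
    · exact ((cV.mul (hw1 j).continuous).pow 2).aestronglyMeasurable
    · filter_upwards [hmem] with x hx
      rw [Real.norm_of_nonneg (by positivity), mul_pow]
      exact (mul_le_of_le_one_right (by positivity) (hw2 j x)).trans (hV2 x hx)
    · refine Eventually.of_forall fun x => ?_
      have h1 := ((hwt x).const_mul (V x)).pow 2
      rwa [mul_pow] at h1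
  -- the energy of `V w`
  have hnum : ∀ j, (∫ x in B.K, ‖fderiv ℝ (fun x => V x * w j x) x‖ ^ 2) =
      (∫ x in B.K, V x ^ 2 * ‖fderiv ℝ (w j) x‖ ^ 2) +
      (∫ φ in (0 : ℝ)..2 * Real.pi, w j (B.y φ) ^ 2 * (⟪Z (B.y φ), ev φ⟫ * B.ρ φ)) -
      ∫ x in B.K, (divg Z x - ‖fderiv ℝ V x‖ ^ 2) * w j x ^ 2 := by
    intro j
    have hX : ContDiff ℝ 1 fun x => w j x ^ 2 • Z x := ((hw1 j).pow 2).smul hT.Z1
    have h1 := B.div_field h0 hX
    have h2 : (∫ φ in (0 : ℝ)..2 * Real.pi, ⟪w j (B.y φ) ^ 2 • Z (B.y φ), ev φ⟫ * B.ρ φ) =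
        ∫ φ in (0 : ℝ)..2 * Real.pi, w j (B.y φ) ^ 2 * (⟪Z (B.y φ), ev φ⟫ * B.ρ φ) := by
      refine intervalIntegral.integral_congr fun φ _ => ?_
      show ⟪w j (B.y φ) ^ 2 • Z (B.y φ), ev φ⟫ * B.ρ φ =
        w j (B.y φ) ^ 2 * (⟪Z (B.y φ), ev φ⟫ * B.ρ φ)
      rw [real_inner_smul_left, mul_assoc]
    rw [h2] at h1
    rw [← h1]
    have i1 : IntegrableOn (fun x => V x ^ 2 * ‖fderiv ℝ (w j) x‖ ^ 2) B.K :=
      intK ((cV.pow 2).mul (((hw1 j).continuous_fderiv one_ne_zero).norm.pow 2))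
    have i2 : IntegrableOn (divg fun x => w j x ^ 2 • Z x) B.K :=
      intK (lim_tr_cont.comp (hX.continuous_fderiv one_ne_zero))
    have i3 : IntegrableOn (fun x => (divg Z x - ‖fderiv ℝ V x‖ ^ 2) * w j x ^ 2) B.K :=
      intK (cE.mul ((hw1 j).continuous.pow 2))
    calc (∫ x in B.K, ‖fderiv ℝ (fun x => V x * w j x) x‖ ^ 2)
        = ∫ x in B.K, ((V x ^ 2 * ‖fderiv ℝ (w j) x‖ ^ 2 +
            divg (fun x => w j x ^ 2 • Z x) x) -
            (divg Z x - ‖fderiv ℝ V x‖ ^ 2) * w j x ^ 2) :=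
          integral_congr_ae (Eventually.of_forall fun x =>
            lim_energy hT.V1 hT.Z1 (hw1 j) hT.VZ x)
      _ = (∫ x in B.K, (V x ^ 2 * ‖fderiv ℝ (w j) x‖ ^ 2 +
            divg (fun x => w j x ^ 2 • Z x) x)) -
            ∫ x in B.K, (divg Z x - ‖fderiv ℝ V x‖ ^ 2) * w j x ^ 2 :=
          integral_sub (i1.add i2) i3
      _ = _ := by rw [integral_add i1 i2]
  have hEB : ∀ j, B.EB k β (fun x => V x * w j x) =
      ((∫ x in B.K, V x ^ 2 * ‖fderiv ℝ (w j) x‖ ^ 2) +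
      (∫ φ in (0 : ℝ)..2 * Real.pi, w j (B.y φ) ^ 2 * (⟪Z (B.y φ), ev φ⟫ * B.ρ φ)) -
      (∫ x in B.K, (divg Z x - ‖fderiv ℝ V x‖ ^ 2) * w j x ^ 2)) +
      k ^ 2 * (∫ x in B.K, (V x * w j x) ^ 2) -
      β * ∫ φ in (0 : ℝ)..2 * Real.pi, (V (B.y φ) * w j (B.y φ)) ^ 2 * B.ρ φ := by
    intro j
    have hu : ContDiff ℝ 1 fun x => V x * w j x := hT.V1.mul (hw1 j)
    have i1 : IntegrableOn (fun x => ‖fderiv ℝ (fun x => V x * w j x) x‖ ^ 2) B.K :=
      intK ((hu.continuous_fderiv one_ne_zero).norm.pow 2)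
    have i2 : IntegrableOn (fun x => k ^ 2 * (V x * w j x) ^ 2) B.K :=
      intK (continuous_const.mul (hu.continuous.pow 2))
    unfold Body.EB
    rw [integral_add i1 i2, integral_const_mul, hnum]
  -- the limit
  obtain ⟨N, hN⟩ : ∃ N : ℝ, N = ((∫ x in B.K, V x ^ 2 * ‖fderiv ℝ v x‖ ^ 2) +
      (∫ φ in (0 : ℝ)..2 * Real.pi, ⟪Z (B.y φ), ev φ⟫ * B.ρ φ) -
      (∫ x in B.K, (divg Z x - ‖fderiv ℝ V x‖ ^ 2) * v x ^ 2)) +
      k ^ 2 * (∫ x in B.K, V x ^ 2 * v x ^ 2) -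
      β * ∫ φ in (0 : ℝ)..2 * Real.pi, V (B.y φ) ^ 2 * B.ρ φ := ⟨_, rfl⟩
  have lN : Tendsto (fun j => B.EB k β (fun x => V x * w j x)) atTop (𝓝 N) := by
    rw [hN]
    simp_rw [hEB]
    exact (((l1.add l2).sub l3).add (l5.const_mul _)).sub (l4.const_mul _)
  have hNε : N ≤ ε := by
    refine le_trans ?_ hT.energy
    have i1 : IntegrableOn (fun x => V x ^ 2 * ‖fderiv ℝ v x‖ ^ 2) B.K := by
      refine Integrable.of_bound (C := C ^ 2 * C ^ 2) ?_ ?_
      · exact ((cV.pow 2).measurable.mul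
          ((measurable_fderiv ℝ v).norm.pow_const 2)).aestronglyMeasurable
      · filter_upwards [hmem] with x hx
        rw [Real.norm_of_nonneg (by positivity)]
        have h3 : ‖fderiv ℝ v x‖ ≤ C := norm_fderiv_le_of_lipschitz ℝ hvLip
        exact mul_le_mul (hV2 x hx) (pow_le_pow_left₀ (norm_nonneg _) h3 2)
          (by positivity) (by positivity)
    have i2 : IntegrableOn (fun x => k ^ 2 * (V x ^ 2 * v x ^ 2)) B.K :=
      intK (continuous_const.mul ((cV.pow 2).mul (cv.pow 2)))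
    have i3 : IntegrableOn
        (fun x => V x ^ 2 * (M (B.depth x) ^ 2 + k ^ 2 * f (B.depth x) ^ 2)) B.K := by
      refine Integrable.of_bound (C := C ^ 2 * (C ^ 2 + k ^ 2)) ?_ ?_
      · exact ((cV.pow 2).measurable.mul (((hT.Mm.comp cdep.measurable).pow_const 2).add
          ((cf.comp cdep).measurable.pow_const 2 |>.const_mul _))).aestronglyMeasurable
      · filter_upwards [hmem] with x hx
        rw [Real.norm_of_nonneg (by positivity)]
        have h3 := hT.M0 (B.depth x)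
        have h4 : M (B.depth x) ^ 2 ≤ C ^ 2 := pow_le_pow_left₀ h3.1 h3.2 2
        have h5 : k ^ 2 * f (B.depth x) ^ 2 ≤ k ^ 2 * 1 :=
          mul_le_mul_of_nonneg_left (hv2 x) (sq_nonneg k)
        exact mul_le_mul (hV2 x hx) (by linarith) (by positivity) (by positivity)
    have h1 : (∫ x in B.K, V x ^ 2 * ‖fderiv ℝ v x‖ ^ 2) +
        k ^ 2 * (∫ x in B.K, V x ^ 2 * v x ^ 2) ≤
        ∫ x in B.K, V x ^ 2 * (M (B.depth x) ^ 2 + k ^ 2 * f (B.depth x) ^ 2) := by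
      rw [← integral_const_mul, ← integral_add i1 i2]
      refine integral_mono_ae (i1.add i2) i3 ?_
      filter_upwards [hmem, ae_restrict_of_ae B.ae_depth_ne] with x hx hx'
      have h2 : 0 < B.depth x := lt_of_le_of_ne hx (Ne.symm hx')
      have h3 := lim_grad hT h2
      have h4 : V x ^ 2 * ‖fderiv ℝ v x‖ ^ 2 ≤ V x ^ 2 * M (B.depth x) ^ 2 :=
        mul_le_mul_of_nonneg_left h3 (sq_nonneg _)
      have h6 : k ^ 2 * (V x ^ 2 * f (B.depth x) ^ 2) =
        V x ^ 2 * (k ^ 2 * f (B.depth x) ^ 2) := by ring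
      show V x ^ 2 * ‖fderiv ℝ v x‖ ^ 2 + k ^ 2 * (V x ^ 2 * f (B.depth x) ^ 2) ≤
        V x ^ 2 * (M (B.depth x) ^ 2 + k ^ 2 * f (B.depth x) ^ 2)
      rw [mul_add, h6]
      exact add_le_add h4 le_rfl
    have h2 := B.div_field h0 hT.Z1
    have h3 : (∫ x in B.K, (divg Z x - ‖fderiv ℝ V x‖ ^ 2) * f (B.depth x) ^ 2) =
        ∫ x in B.K, (divg Z x - ‖fderiv ℝ V x‖ ^ 2) * v x ^ 2 := rfl
    rw [hN, h3, h2]
    linarith
  have hlow : c₀ / 2 < ∫ x in B.K, V x ^ 2 * v x ^ 2 := by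
    have h1 : c₀ ≤ ∫ x in B.K, V x ^ 2 * v x ^ 2 := hT.low
    linarith
  obtain ⟨j, hj1, hj2⟩ := ((l5.eventually (lt_mem_nhds hlow)).and
    (lN.eventually (gt_mem_nhds (by linarith : N < ε + e)))).exists
  refine ⟨fun x => V x * w j x, hT.V1.mul (hw1 j), fun x hx => ?_, hj1.le, hj2.le⟩
  rw [mul_pow]
  exact (mul_le_of_le_one_right (sq_nonneg _) (hw2 j x)).trans (hV2 x hx)

end Pool.Agent.RC
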