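import Pool.Agent.H.MP_1b807b_an.L.Core
import Pool.Agent.H.MP_1b807b_an.L.Lim
import Pool.Agent.H.MP_1b807b_an.L.Gap
import Pool.Agent.H.MP_1b807b_an.L.Disc
import Pool.Agent.H.MP_1b807b_an.C.Main
import Pool.Agent.H.MP_1b807b_an.C.MainU

/-! MP_1b807b_an, hull theorem, module Main -/

set_option autoImplicit false

namespace Pool.Agent.RC

open MeasureTheory Metric Set
open Pool.Agent.RG
open scoped RealInnerProductSpace Pointwise

/-- a body with support function at most that of `Ω` plus `δ` lies in a ball -/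
private theorem hm_sub_ball {Ω : Set (E 2)} (hne : Ω.Nonempty) {d₀ : ℝ}
    (hd : Ω ⊆ closedBall 0 d₀) {B : Body} {δ : ℝ} (hδ : ∀ θ, B.h θ ≤ supp Ω θ + δ) :
    B.K ⊆ closedBall 0 (d₀ + δ) := by
  intro x hx
  obtain ⟨θ, hθ⟩ := exists_polar x
  have h1 := B.mem_K_iff.1 hx θ
  have h2 : sp x θ = ‖x‖ := by
    conv_lhs => rw [hθ]
    rw [sp_smul, sp_ev, sub_self, Real.cos_zero, mul_one]
  have h3 : supp Ω θ ≤ d₀ := supp_le hne fun y hy => by
    have h4 := hd hy
    rw [mem_closedBall_zero_iff] at h4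
    exact (le_abs_self _).trans ((abs_sp_le y θ).trans h4)
  rw [mem_closedBall_zero_iff, ← h2]
  linarith [hδ θ]

/-- the data common to both proofs: a scaled outer body -/
private theorem hm_scaled {R : ℝ} (hR : 0 < R) {β : ℝ} (hβ : 0 < β) (D : Domain 2)
    (hv : volume (convexHull ℝ D.carrier) = volume (ball (0 : E 2) R))
    (h0 : (0 : E 2) ∈ D.carrier) {k : ℝ} (hk : 0 < k) (hkβ : k * GG k = R * β)
    {K₁ : ℝ} (hK₁ : 0 < K₁) (hK₁β : K₁ * GG K₁ = 2 * R * β)
    {d₀ : ℝ} (hDd : D.carrier ⊆ closedBall 0 d₀) {δ : ℝ} (hδ : 0 < δ) (hδ1 : δ ≤ 1)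
    (hδR : δ ≤ 3 * Real.pi * R ^ 2) :
    ∃ (r k' : ℝ) (B B' : Body) (D' : Domain 2), R ≤ r ∧ r ≤ 2 * R ∧
      r ^ 2 ≤ R ^ 2 + δ / Real.pi ∧
      k ≤ k' ∧ k' ≤ K₁ ∧ k' * GG k' = r * β ∧
      (∀ θ, B'.h θ = 1 / r * B.h θ) ∧ (∀ θ, supp D.carrier θ ≤ B.h θ) ∧
      B'.area = Real.pi ∧ (∀ θ, 0 < B'.h θ) ∧ B'.K ⊆ closedBall 0 ((d₀ + 1) / R) ∧
      D'.carrier ⊆ B'.K ∧ (∀ θ, B'.h θ ≤ supp D'.carrier θ + δ / R) ∧
      volume.real D'.carrier ≤ Real.pi ∧
      (∀ Q : ℝ, D'.robin (-(k' * GG k')) ≤ ((Q : ℝ) : EReal) →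
        D.robin (-β) ≤ (((1 / r) ^ 2 * Q : ℝ) : EReal)) := by
  obtain ⟨B, hBh, hDB, hBδ, hA1, hA2⟩ := exists_outer D.isOpen D.isBounded h0 hδ
  have hπ := Real.pi_pos
  have hne : D.carrier.Nonempty := ⟨0, h0⟩
  have hvc : volume.real (convexHull ℝ D.carrier) = Real.pi * R ^ 2 := by
    rw [Measure.real, hv, ← Measure.real, vol_ball hR]
  rw [hvc] at hA1 hA2
  set r := Real.sqrt (B.area / Real.pi) with hr
  have hApos : 0 < B.area := lt_of_lt_of_le (by positivity) hA1
  have hr2 : r ^ 2 = B.area / Real.pi := Real.sq_sqrt (div_nonneg hApos.le hπ.le)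
  have hRr : R ≤ r := by
    apply Real.le_sqrt_of_sq_le
    rw [le_div_iff₀ hπ]
    linarith
  have hrpos : 0 < r := by linarith
  have hr2R : r ≤ 2 * R := by
    apply Real.sqrt_le_iff.2 ⟨by linarith, ?_⟩
    rw [div_le_iff₀ hπ]
    nlinarith
  have hcpos : 0 < 1 / r := by positivity
  have hcR : 1 / r ≤ 1 / R := one_div_le_one_div_of_le hR hRr
  obtain ⟨B', hB'h, hB'K, hB'A⟩ := exists_scaled_body B hcpos
  obtain ⟨D', hD', hD'r⟩ := exists_scale D hcpos
  obtain ⟨k', hk', hk'e⟩ := exists_k (β := r * β) (by positivity)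
  refine ⟨r, k', B, B', D', hRr, hr2R, ?_, ?_, ?_, hk'e, hB'h, ?_, ?_, ?_, ?_, ?_, ?_, ?_, ?_⟩
  · rw [hr2, div_le_iff₀ hπ]
    have : (R ^ 2 + δ / Real.pi) * Real.pi = Real.pi * R ^ 2 + δ := by field_simp
    linarith
  · rw [k_mono hk hk', hk'e, hkβ]
    exact mul_le_mul_of_nonneg_right hRr hβ.le
  · rw [k_mono hk' hK₁, hk'e, hK₁β]
    exact mul_le_mul_of_nonneg_right hr2R hβ.le
  · exact fun θ => supp_le hne fun x hx => B.mem_K_iff.1 (hDB hx) θ
  · rw [hB'A, show B.area = r ^ 2 * Real.pi by rw [hr2]; field_simp]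
    field_simp
  · exact fun θ => by rw [hB'h]; exact mul_pos hcpos (hBh θ)
  · have h1 := hm_sub_ball hne hDd hBδ
    rw [hB'K]
    rintro _ ⟨x, hx, rfl⟩
    have h2 := h1 hx
    rw [mem_closedBall_zero_iff] at h2 ⊢
    rw [norm_smul, Real.norm_of_nonneg hcpos.le]
    have hd1 : 0 ≤ d₀ + 1 := by
      have := norm_nonneg x
      linarith
    calc 1 / r * ‖x‖ ≤ 1 / R * (d₀ + 1) :=
          mul_le_mul hcR (by linarith) (norm_nonneg _) (by positivity)
      _ = (d₀ + 1) / R := by ring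
  · rw [hD', hB'K]
    exact image_mono hDB
  · intro θ
    rw [hB'h, hD', supp_smul D.isBounded hne hcpos]
    have h1 := mul_le_mul_of_nonneg_left (hBδ θ) hcpos.le
    have h2 : 1 / r * δ ≤ δ / R := by
      rw [div_eq_mul_one_div δ R, mul_comm δ]
      exact mul_le_mul_of_nonneg_right hcR hδ.le
    linarith
  · rw [hD', vol_smul hcpos]
    have h1 : volume.real D.carrier ≤ Real.pi * R ^ 2 := by
      rw [← hvc]
      refine measureReal_mono (subset_convexHull ℝ _) ?_
      rw [hv]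
      exact isBounded_ball.measure_lt_top.ne
    have h2 : (1 / r) ^ 2 ≤ (1 / R) ^ 2 := by gcongr
    calc (1 / r) ^ 2 * volume.real D.carrier ≤ (1 / R) ^ 2 * (Real.pi * R ^ 2) := by gcongr
      _ = Real.pi := by field_simp
  · intro Q hQ
    have h1 := hD'r _ _ hQ
    have e1 : 1 / r * (k' * GG k') = β := by
      rw [hk'e]
      field_simp
    rwa [e1] at h1

/-- `(k/R)² ≤ (k'/r)² + small` -/
private theorem hm_ratio {R r k k' δ : ℝ} (hR : 0 < R) (hRr : R ≤ r) (hk : 0 < k) (hkk : k ≤ k')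
    (hδ : 0 < δ) (hr : r ^ 2 ≤ R ^ 2 + δ / Real.pi) :
    (k / R) ^ 2 ≤ (1 / r) ^ 2 * k' ^ 2 + (k / R) ^ 2 * (δ / (Real.pi * R ^ 2)) := by
  have hr0 : 0 < r := by linarith
  have hπ := Real.pi_pos
  have h1 : (1 / r) ^ 2 * k ^ 2 ≤ (1 / r) ^ 2 * k' ^ 2 := by gcongr
  have h2 : (k / R) ^ 2 - (k / R) ^ 2 * (δ / (Real.pi * R ^ 2)) ≤ (1 / r) ^ 2 * k ^ 2 := by
    have e1 : (k / R) ^ 2 - (k / R) ^ 2 * (δ / (Real.pi * R ^ 2)) =
        k ^ 2 / R ^ 4 * (R ^ 2 - δ / Real.pi) := by
      field_simp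
    have e2 : (1 / r) ^ 2 * k ^ 2 = k ^ 2 / R ^ 4 * (R ^ 4 / r ^ 2) := by
      field_simp
    rw [e1, e2]
    refine mul_le_mul_of_nonneg_left ?_ (by positivity)
    rw [le_div_iff₀ (by positivity)]
    have hr2 : 0 < r ^ 2 := by positivity
    rcases le_total (R ^ 2 - δ / Real.pi) 0 with h | h
    · have : (R ^ 2 - δ / Real.pi) * r ^ 2 ≤ 0 := mul_nonpos_of_nonpos_of_nonneg h hr2.le
      have h4 : 0 < R ^ 4 := by positivity
      linarith
    · have h3 : (R ^ 2 - δ / Real.pi) * r ^ 2 ≤ (R ^ 2 - δ / Real.pi) * (R ^ 2 + δ / Real.pi) :=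
        mul_le_mul_of_nonneg_left hr h
      have h5 : 0 ≤ (δ / Real.pi) ^ 2 := by positivity
      nlinarith
  linarith

private theorem hm_gap {k k' K₁ : ℝ} (hk : 0 < k) (h1 : k ≤ k') (h2 : k' ≤ K₁) :
    k ^ 2 * (1 - GG K₁ ^ 2) ≤ k' ^ 2 - (k' * GG k') ^ 2 := by
  have hG0 : 0 ≤ GG k' := DI.GG_nonneg (by linarith)
  have hG1 : GG k' ≤ GG K₁ := DI.GG_mono h2
  have hG2 : GG K₁ ≤ 1 := DI.GG_le_one _
  have h3 : GG k' ^ 2 ≤ GG K₁ ^ 2 := by gcongr
  have h4 : GG K₁ ^ 2 ≤ 1 := pow_le_one₀ (by linarith) hG2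
  have h5 : k ^ 2 ≤ k' ^ 2 := by gcongr
  calc k ^ 2 * (1 - GG K₁ ^ 2) ≤ k' ^ 2 * (1 - GG k' ^ 2) :=
        mul_le_mul h5 (by linarith) (by linarith) (by positivity)
    _ = k' ^ 2 - (k' * GG k') ^ 2 := by ring

set_option maxHeartbeats 4000000 in
theorem hull_aux {R : ℝ} (hR : 0 < R) {β : ℝ} (hβ : 0 < β) (D : Domain 2)
    (hv : volume (convexHull ℝ D.carrier) = volume (ball (0 : E 2) R))
    (h0 : (0 : E 2) ∈ D.carrier) {k : ℝ} (hk : 0 < k) (hkβ : k * GG k = R * β) :
    D.robin (-β) ≤ ((-(k / R) ^ 2 : ℝ) : EReal) := by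
  refine ereal_le_of_forall fun η hη => ?_
  have hπ := Real.pi_pos
  obtain ⟨d₀, hd₀, hDd⟩ := D.isBounded.subset_closedBall_lt 0 (0 : E 2)
  obtain ⟨K₁, hK₁, hK₁β⟩ := exists_k (β := 2 * R * β) (by positivity)
  have hkK : k ≤ K₁ := by
    rw [k_mono hk hK₁, hK₁β, hkβ]
    nlinarith [mul_pos hR hβ]
  have hdpos : 0 < (d₀ + 1) / R := by positivity
  obtain ⟨C, c₀, hC, hc₀, hcase⟩ := case_all (fun B hA h0 => B.len_ge hA h0) K₁ hK₁
    ((d₀ + 1) / R) hdpos
  set γ₀ : ℝ := k ^ 2 * (1 - GG K₁ ^ 2) with hγ₀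
  have hGK0 : 0 ≤ GG K₁ := DI.GG_nonneg hK₁.le
  have hGK1 : GG K₁ < 1 := Pool.Agent.H.MP_1b807b_an.F_lt_one 1 K₁
  have hγ₀pos : 0 < γ₀ := by
    have : GG K₁ ^ 2 < 1 := pow_lt_one₀ hGK0 hGK1 (by norm_num)
    exact mul_pos (by positivity) (by linarith)
  set η' : ℝ := η * R ^ 2 / 2 with hη'
  have hη'pos : 0 < η' := by positivity
  set m : ℝ := min η' γ₀ * (c₀ / 2) with hm
  have hmpos : 0 < m := mul_pos (lt_min hη'pos hγ₀pos) (by positivity)
  set δ : ℝ := min (min 1 (3 * Real.pi * R ^ 2))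
    (min (m / (16 * Real.pi * β * (C ^ 2 + 1))) (η * (Real.pi * R ^ 2) / (2 * (k / R) ^ 2))) with hδ
  have hδpos : 0 < δ := by
    have hkR : 0 < k / R := by positivity
    refine lt_min (lt_min one_pos (by positivity)) (lt_min (by positivity) (by positivity))
  have hδ1 : δ ≤ 1 := (min_le_left _ _).trans (min_le_left _ _)
  have hδ2 : δ ≤ 3 * Real.pi * R ^ 2 := (min_le_left _ _).trans (min_le_right _ _)
  have hδ3 : δ ≤ m / (16 * Real.pi * β * (C ^ 2 + 1)) := (min_le_right _ _).trans (min_le_left _ _)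
  have hδ4 : δ ≤ η * (Real.pi * R ^ 2) / (2 * (k / R) ^ 2) :=
    (min_le_right _ _).trans (min_le_right _ _)
  obtain ⟨r, k', B, B', D', hRr, hr2R, hrsq, hkk', hk'K, hk'e, hB'h, hBs, hA', hB'pos, hB'd, hD'B,
    hB'δ, hvD', htr⟩ := hm_scaled hR hβ D hv h0 hk hkβ hK₁ hK₁β hDd hδpos hδ1 hδ2
  have hrpos : 0 < r := by linarith
  have hk'pos : 0 < k' := by linarith
  obtain ⟨V, Z, f, M, hT⟩ := hcase k' B' hk'pos hk'K trivial hA' hB'pos hB'd (m / 4)
    (by positivity)
  have hβ'0 : 0 ≤ k' * GG k' := by rw [hk'e]; positivity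
  obtain ⟨u, hu, huC, hulow, huE⟩ := exists_c1 B' hB'pos hC hβ'0 hT hB'd hc₀
    (e := m / 4) (by positivity)
  have hβk : k' * GG k' < k' := by
    have := Pool.Agent.H.MP_1b807b_an.F_lt_one 1 k'
    have h1 : GG k' < 1 := this
    nlinarith
  have hgap := hm_gap (K₁ := K₁) hk hkk' hk'K
  have hcore := hull_core D' B' hB'pos hD'B hu (c₀ := c₀ / 2) (η := η') (δ := δ / R) huC
    (by positivity) hulow huE hβ'0 hβk hB'δ hη'pos (by
      have e1 : k' * GG k' * (2 * Real.pi * C ^ 2 * (δ / R)) ≤ m / 4 := by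
        rw [hk'e]
        have h1 : r * β * (2 * Real.pi * C ^ 2 * (δ / R)) ≤
            2 * R * β * (2 * Real.pi * (C ^ 2 + 1) * (δ / R)) := by
          gcongr
          linarith
        have h2 : 2 * R * β * (2 * Real.pi * (C ^ 2 + 1) * (δ / R)) =
            4 * Real.pi * β * (C ^ 2 + 1) * δ := by
          field_simp
          ring
        have h3 : 4 * Real.pi * β * (C ^ 2 + 1) * δ ≤
            4 * Real.pi * β * (C ^ 2 + 1) * (m / (16 * Real.pi * β * (C ^ 2 + 1))) := by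
          gcongr
        have h4 : 4 * Real.pi * β * (C ^ 2 + 1) * (m / (16 * Real.pi * β * (C ^ 2 + 1))) =
            m / 4 := by
          field_simp
          ring
        linarith
      have e2 : m ≤ min η' (k' ^ 2 - (k' * GG k') ^ 2) * (c₀ / 2) := by
        rw [hm]
        refine mul_le_mul_of_nonneg_right ?_ (by positivity)
        exact min_le_min le_rfl hgap
      linarith)
  have hb := htr _ hcore
  refine hb.trans ?_
  rw [EReal.coe_le_coe_iff]
  have h5 := hm_ratio hR hRr hk hkk' hδpos hrsq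
  have h6 : (k / R) ^ 2 * (δ / (Real.pi * R ^ 2)) ≤ η / 2 := by
    have h7 : (k / R) ^ 2 * (δ / (Real.pi * R ^ 2)) ≤
        (k / R) ^ 2 * ((η * (Real.pi * R ^ 2) / (2 * (k / R) ^ 2)) / (Real.pi * R ^ 2)) := by
      gcongr
    have hkR : 0 < k / R := by positivity
    have h8 : (k / R) ^ 2 * ((η * (Real.pi * R ^ 2) / (2 * (k / R) ^ 2)) / (Real.pi * R ^ 2)) =
        η / 2 := by
      field_simp
    linarith
  have h9 : (1 / r) ^ 2 * η' ≤ η / 2 := by
    have h10 : (1 / r) ^ 2 ≤ (1 / R) ^ 2 := by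
      have := one_div_le_one_div_of_le hR hRr
      gcongr
    calc (1 / r) ^ 2 * η' ≤ (1 / R) ^ 2 * η' := by gcongr
      _ = η / 2 := by
        rw [hη']
        field_simp
  have h11 : (1 / r) ^ 2 * (-k' ^ 2 + η') = -((1 / r) ^ 2 * k' ^ 2) + (1 / r) ^ 2 * η' := by ring
  rw [h11]
  linarith

set_option maxHeartbeats 4000000 in
theorem hull_strict_aux {R : ℝ} (hR : 0 < R) {β : ℝ} (hβ : 0 < β) (D : Domain 2)
    (hv : volume (convexHull ℝ D.carrier) = volume (ball (0 : E 2) R))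
    (h0 : (0 : E 2) ∈ D.carrier) {k : ℝ} (hk : 0 < k) (hkβ : k * GG k = R * β)
    (hne : ∀ x₀, convexHull ℝ D.carrier ≠ ball x₀ R) :
    ∃ η > (0 : ℝ), D.robin (-β) ≤ ((-(k / R) ^ 2 - η : ℝ) : EReal) := by
  have hπ := Real.pi_pos
  obtain ⟨τ, hτ, hlen⟩ := hull_gap D.isOpen D.isBounded h0 hR hv hne
  obtain ⟨d₀, hd₀, hDd⟩ := D.isBounded.subset_closedBall_lt 0 (0 : E 2)
  obtain ⟨K₁, hK₁, hK₁β⟩ := exists_k (β := 2 * R * β) (by positivity)
  have hkK : k ≤ K₁ := by
    rw [k_mono hk hK₁, hK₁β, hkβ]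
    nlinarith [mul_pos hR hβ]
  have hdpos : 0 < (d₀ + 1) / R := by positivity
  obtain ⟨C, c₀, γ, hC, hc₀, hγ, hcase⟩ := case_all_strict K₁ hK₁ k hk ((d₀ + 1) / R) hdpos
    (τ / (4 * R)) (by positivity)
  set A : ℝ := C ^ 2 * Real.pi + 1 with hA
  have hApos : 0 < A := by positivity
  set δ : ℝ := min (min 1 (3 * Real.pi * R ^ 2))
    (min (min (γ / (16 * Real.pi * β * (C ^ 2 + 1))) (τ * R / 2))
      (γ / (16 * A * R ^ 2) * (Real.pi * R ^ 2) / (k / R) ^ 2)) with hδ
  have hkR : 0 < k / R := by positivity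
  have hδpos : 0 < δ :=
    lt_min (lt_min one_pos (by positivity)) (lt_min (lt_min (by positivity) (by positivity))
      (by positivity))
  have hδ1 : δ ≤ 1 := (min_le_left _ _).trans (min_le_left _ _)
  have hδ2 : δ ≤ 3 * Real.pi * R ^ 2 := (min_le_left _ _).trans (min_le_right _ _)
  have hδ3 : δ ≤ γ / (16 * Real.pi * β * (C ^ 2 + 1)) :=
    (min_le_right _ _).trans ((min_le_left _ _).trans (min_le_left _ _))
  have hδ4 : δ ≤ τ * R / 2 := (min_le_right _ _).trans ((min_le_left _ _).trans (min_le_right _ _))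
  have hδ5 : δ ≤ γ / (16 * A * R ^ 2) * (Real.pi * R ^ 2) / (k / R) ^ 2 :=
    (min_le_right _ _).trans (min_le_right _ _)
  obtain ⟨r, k', B, B', D', hRr, hr2R, hrsq, hkk', hk'K, hk'e, hB'h, hBs, hA', hB'pos, hB'd, hD'B,
    hB'δ, hvD', htr⟩ := hm_scaled hR hβ D hv h0 hk hkβ hK₁ hK₁β hDd hδpos hδ1 hδ2
  have hrpos : 0 < r := by linarith
  have hk'pos : 0 < k' := by linarith
  -- the perimeter
  have hl : 2 * Real.pi + τ / (4 * R) ≤ B'.len := by
    have e1 : B'.len = 1 / r * ∫ θ in (0 : ℝ)..2 * Real.pi, B.h θ := by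
      unfold Body.len
      rw [← intervalIntegral.integral_const_mul]
      exact intervalIntegral.integral_congr fun θ _ => hB'h θ
    have hne' : D.carrier.Nonempty := ⟨0, h0⟩
    have hbd : ∀ x ∈ D.carrier, ‖x‖ ≤ d₀ := fun x hx => by
      have := hDd hx
      rwa [mem_closedBall_zero_iff] at this
    have e2 : (∫ θ in (0 : ℝ)..2 * Real.pi, supp D.carrier θ) ≤
        ∫ θ in (0 : ℝ)..2 * Real.pi, B.h θ :=
      intervalIntegral.integral_mono_on (by positivity)
        ((supp_continuous hne' hbd).intervalIntegrable _ _)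
        (B.smooth.continuous.intervalIntegrable _ _) fun θ _ => hBs θ
    have e3 : r - R ≤ τ / (4 * Real.pi) := by
      have h1 : (r - R) * (2 * R) ≤ (r - R) * (r + R) :=
        mul_le_mul_of_nonneg_left (by linarith) (by linarith)
      have h2 : (r - R) * (r + R) ≤ δ / Real.pi := by nlinarith
      have h3 : δ / Real.pi ≤ τ * R / 2 / Real.pi := by gcongr
      have h4 : (r - R) * (2 * R) ≤ τ / (4 * Real.pi) * (2 * R) := by
        have : τ / (4 * Real.pi) * (2 * R) = τ * R / 2 / Real.pi := by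
          field_simp
          ring
        linarith
      exact le_of_mul_le_mul_right h4 (by positivity)
    rw [e1, one_div, inv_mul_eq_div, le_div_iff₀ hrpos]
    have h5 : τ / (4 * R) * r ≤ τ / 2 := by
      calc τ / (4 * R) * r ≤ τ / (4 * R) * (2 * R) := by gcongr
        _ = τ / 2 := by
          field_simp
          ring
    have h6 : 2 * Real.pi * (r - R) ≤ τ / 2 := by
      calc 2 * Real.pi * (r - R) ≤ 2 * Real.pi * (τ / (4 * Real.pi)) := by gcongr
        _ = τ / 2 := by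
          field_simp
          ring
    nlinarith
  obtain ⟨V, Z, f, M, hT⟩ := hcase k' B' hkk' hk'K trivial hA' hB'pos hB'd hl
  have hβ'0 : 0 ≤ k' * GG k' := by rw [hk'e]; positivity
  obtain ⟨u, hu, huC, hulow, huE⟩ := exists_c1 B' hB'pos hC hβ'0 hT hB'd hc₀
    (e := γ / 4) (by positivity)
  have hβk : k' * GG k' < k' := by
    have := Pool.Agent.H.MP_1b807b_an.F_lt_one 1 k'
    have h1 : GG k' < 1 := this
    nlinarith
  have hcore := hull_core_strict D' B' hB'pos hD'B hu (γ := γ / 2) (A := A) (δ := δ / R) huC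
    huE hβ'0 hβk hB'δ (by positivity) (by
      have : C ^ 2 * volume.real D'.carrier ≤ C ^ 2 * Real.pi := by gcongr
      rw [hA]
      linarith) (by
      have e1 : k' * GG k' * (2 * Real.pi * C ^ 2 * (δ / R)) ≤ γ / 4 := by
        rw [hk'e]
        have h1 : r * β * (2 * Real.pi * C ^ 2 * (δ / R)) ≤
            2 * R * β * (2 * Real.pi * (C ^ 2 + 1) * (δ / R)) := by
          gcongr
          linarith
        have h2 : 2 * R * β * (2 * Real.pi * (C ^ 2 + 1) * (δ / R)) =
            4 * Real.pi * β * (C ^ 2 + 1) * δ := by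
          field_simp
          ring
        have h3 : 4 * Real.pi * β * (C ^ 2 + 1) * δ ≤
            4 * Real.pi * β * (C ^ 2 + 1) * (γ / (16 * Real.pi * β * (C ^ 2 + 1))) := by
          gcongr
        have h4 : 4 * Real.pi * β * (C ^ 2 + 1) * (γ / (16 * Real.pi * β * (C ^ 2 + 1))) =
            γ / 4 := by
          field_simp
          ring
        linarith
      linarith)
  have hb := htr _ hcore
  refine ⟨γ / (16 * A * R ^ 2), by positivity, hb.trans ?_⟩
  rw [EReal.coe_le_coe_iff]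
  have h5 := hm_ratio hR hRr hk hkk' hδpos hrsq
  have h6 : (k / R) ^ 2 * (δ / (Real.pi * R ^ 2)) ≤ γ / (16 * A * R ^ 2) := by
    have h7 : (k / R) ^ 2 * (δ / (Real.pi * R ^ 2)) ≤
        (k / R) ^ 2 * ((γ / (16 * A * R ^ 2) * (Real.pi * R ^ 2) / (k / R) ^ 2) /
          (Real.pi * R ^ 2)) := by
      gcongr
    have h8 : (k / R) ^ 2 * ((γ / (16 * A * R ^ 2) * (Real.pi * R ^ 2) / (k / R) ^ 2) /
          (Real.pi * R ^ 2)) = γ / (16 * A * R ^ 2) := by
      field_simp
    linarith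
  have h9 : γ / (8 * A * R ^ 2) ≤ (1 / r) ^ 2 * (γ / 2 / A) := by
    have h10 : (1 / (2 * R)) ^ 2 ≤ (1 / r) ^ 2 := by
      have := one_div_le_one_div_of_le hrpos hr2R
      gcongr
    calc γ / (8 * A * R ^ 2) = (1 / (2 * R)) ^ 2 * (γ / 2 / A) := by
          field_simp
          ring
      _ ≤ (1 / r) ^ 2 * (γ / 2 / A) := by gcongr
  have h10 : γ / (8 * A * R ^ 2) = 2 * (γ / (16 * A * R ^ 2)) := by
    field_simp
    ring
  have h11 : (1 / r) ^ 2 * (-k' ^ 2 - γ / 2 / A) =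
      -((1 / r) ^ 2 * k' ^ 2) - (1 / r) ^ 2 * (γ / 2 / A) := by ring
  rw [h11]
  linarith

/-- the image of the hull under a translation -/
private theorem hm_translate (S : Set (E 2)) (a : E 2) :
    convexHull ℝ ((fun x => x + a) '' S) = (fun x => x + a) '' convexHull ℝ S := by
  exact (AffineMap.image_convexHull ((AffineMap.id ℝ (E 2)) + AffineMap.const ℝ (E 2) a) S).symm

private theorem hm_vol_translate (S : Set (E 2)) (a : E 2) :
    volume ((fun x => x + a) '' S) = volume S := by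
  rw [image_add_right, measure_preimage_add_right]

private theorem hm_ball_translate (x₀ a : E 2) (R : ℝ) :
    (fun x => x + a) '' ball x₀ R = ball (x₀ + a) R := by
  ext z
  simp only [mem_image, mem_ball]
  constructor
  · rintro ⟨y, hy, rfl⟩
    rwa [dist_add_right]
  · intro hz
    refine ⟨z - a, ?_, by simp⟩
    rw [dist_eq_norm] at hz ⊢
    rwa [show z - a - x₀ = z - (x₀ + a) by abel]

/-- for `r ≤ R` the disc of radius `r` does worse -/
private theorem hm_radius {r R k l β : ℝ} (hr : 0 < r) (hrR : r ≤ R) (hk : 0 < k) (hl : 0 < l)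
    (hkβ : k * GG k = r * β) (hlβ : l * GG l = R * β) :
    l / R ≤ k / r ∧ (r < R → l / R < k / r) := by
  have hR : 0 < R := by linarith
  have hmono := Pool.Agent.H.MP_1b807b_an.strictMono_F 1
  have key : ∀ s : ℝ, s < R ∨ s = R → s = r → l / R ≤ k / r ∧ (r < R → l / R < k / r) := by
    intro s _ _
    have h1 : r < R → l / R < k / r := by
      intro hlt
      by_contra hcon
      push Not at hcon
      have h2 : k ≤ l / R * r := by
        rwa [div_le_iff₀ hr] at hcon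
      have h3 : l / R * r < l := by
        rw [div_mul_eq_mul_div, div_lt_iff₀ hR]
        exact mul_lt_mul_of_pos_left hlt hl
      have h4 : GG k < GG l := hmono (lt_of_le_of_lt h2 h3)
      have h5 : GG k = r * β / k := by
        rw [← hkβ]
        field_simp
      have h6 : GG l = R * β / l := by
        rw [← hlβ]
        field_simp
      have hGk : 0 < GG k := Pool.Agent.H.MP_1b807b_an.F_pos 1 hk
      have h7 : k * GG k < l / R * r * GG l := by
        calc k * GG k ≤ l / R * r * GG k := by gcongr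
          _ < l / R * r * GG l := by
            have : 0 < l / R * r := by positivity
            exact mul_lt_mul_of_pos_left h4 this
      have h8 : l / R * r * GG l = r * β := by
        have : l / R * r * GG l = r / R * (l * GG l) := by ring
        rw [this, hlβ]
        field_simp
      linarith
    refine ⟨?_, h1⟩
    rcases hrR.lt_or_eq with h | h
    · exact (h1 h).le
    · have h2 : k = l := by
        apply le_antisymm
        · rw [k_mono hk hl, hkβ, hlβ, h]
        · rw [k_mono hl hk, hkβ, hlβ, h]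
      rw [h2, h]
  exact key r (hrR.lt_or_eq) rfl

theorem main_hull {R : ℝ} (hR : 0 < R) {α : ℝ} (hα : α < 0) (D : Domain 2)
    (hv : volume (convexHull ℝ D.carrier) ≤ volume (ball (0 : E 2) R)) :
    D.robin α ≤ (ballDomain 2 (by norm_num) R hR).robin α ∧
    (D.robin α = (ballDomain 2 (by norm_num) R hR).robin α →
      ∃ x₀ : E 2, convexHull ℝ D.carrier = ball x₀ R ∧
        volume (ball x₀ R \ D.carrier) = 0) := by
  have hπ := Real.pi_pos
  -- the radius of the disc of the area of the hull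
  have hfin : volume (convexHull ℝ D.carrier) ≠ ⊤ :=
    (hv.trans_lt isBounded_ball.measure_lt_top).ne
  have hvpos : 0 < volume.real (convexHull ℝ D.carrier) := by
    have h1 : 0 < volume D.carrier := D.isOpen.measure_pos volume D.isConnected.nonempty
    have h2 : 0 < volume (convexHull ℝ D.carrier) :=
      h1.trans_le (measure_mono (subset_convexHull ℝ _))
    exact ENNReal.toReal_pos h2.ne' hfin
  set r := Real.sqrt (volume.real (convexHull ℝ D.carrier) / Real.pi) with hr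
  have hrpos : 0 < r := Real.sqrt_pos.2 (by positivity)
  have hr2 : r ^ 2 = volume.real (convexHull ℝ D.carrier) / Real.pi :=
    Real.sq_sqrt (by positivity)
  have hvr : volume (convexHull ℝ D.carrier) = volume (ball (0 : E 2) r) := by
    have h1 : volume.real (convexHull ℝ D.carrier) = volume.real (ball (0 : E 2) r) := by
      rw [vol_ball hrpos, hr2]
      field_simp
    exact (ENNReal.toReal_eq_toReal_iff' hfin isBounded_ball.measure_lt_top.ne).1 h1
  have hrR : r ≤ R := by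
    have h1 : volume.real (convexHull ℝ D.carrier) ≤ volume.real (ball (0 : E 2) R) :=
      ENNReal.toReal_mono isBounded_ball.measure_lt_top.ne hv
    rw [vol_ball hR] at h1
    apply Real.sqrt_le_iff.2 ⟨hR.le, ?_⟩
    rw [div_le_iff₀ hπ]
    linarith
  obtain ⟨k, hk, hkβ⟩ := exists_k (β := r * (-α)) (by nlinarith)
  obtain ⟨l, hl, hlβ⟩ := exists_k (β := R * (-α)) (by nlinarith)
  obtain ⟨hle, hlt⟩ := hm_radius hrpos hrR hk hl hkβ hlβ
  have hball : ((-(l / R) ^ 2 : ℝ) : EReal) ≤ (ballDomain 2 (by norm_num) R hR).robin α := by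
    have h3 := robin_ball_scale hR hl
    have e : -(l * GG l / R) = α := by
      rw [hlβ]
      field_simp
    rwa [e] at h3
  -- translate
  obtain ⟨a, ha⟩ := D.isConnected.nonempty
  obtain ⟨D', hD', hD'r⟩ := exists_translate D (-a)
  have h0 : (0 : E 2) ∈ D'.carrier := by
    rw [hD']
    exact ⟨a, ha, by simp⟩
  have hconv : convexHull ℝ D'.carrier = (fun x => x + -a) '' convexHull ℝ D.carrier := by
    rw [hD', hm_translate]
  have hv' : volume (convexHull ℝ D'.carrier) = volume (ball (0 : E 2) r) := by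
    rw [hconv, hm_vol_translate, hvr]
  have hα' : 0 < -α := by linarith
  have h1 := hull_aux hrpos hα' D' hv' h0 hk hkβ
  have h2 := hD'r _ _ h1
  rw [neg_neg] at h2
  have hlR : 0 < l / R := by positivity
  have h3 : ((-(k / r) ^ 2 : ℝ) : EReal) ≤ ((-(l / R) ^ 2 : ℝ) : EReal) := by
    rw [EReal.coe_le_coe_iff]
    have : (l / R) ^ 2 ≤ (k / r) ^ 2 := by gcongr
    linarith
  refine ⟨(h2.trans h3).trans hball, fun heq => ?_⟩
  rw [← heq] at hball
  -- the radius
  have hrR' : r = R := by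
    by_contra hne
    have h4 : r < R := lt_of_le_of_ne hrR hne
    have h5 := hball.trans h2
    rw [EReal.coe_le_coe_iff] at h5
    have h6 : (l / R) ^ 2 < (k / r) ^ 2 := by
      have := hlt h4
      gcongr
    linarith
  have hkl : k = l := by
    apply le_antisymm
    · rw [k_mono hk hl, hkβ, hlβ, hrR']
    · rw [k_mono hl hk, hkβ, hlβ, hrR']
  -- the hull
  have hex : ∃ x₀, convexHull ℝ D'.carrier = ball x₀ r := by
    by_contra hcon
    push Not at hcon
    obtain ⟨η, hη, h4⟩ := hull_strict_aux hrpos hα' D' hv' h0 hk hkβ hcon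
    have h5 := hD'r _ _ h4
    rw [neg_neg] at h5
    have h6 := hball.trans h5
    rw [EReal.coe_le_coe_iff, hkl, hrR'] at h6
    linarith
  obtain ⟨x₀, hx₀⟩ := hex
  have hback : (fun x => x + a) '' ((fun x => x + -a) '' convexHull ℝ D.carrier) =
      convexHull ℝ D.carrier := by
    rw [image_image]
    simp
  have hDconv : convexHull ℝ D.carrier = ball (x₀ + a) R := by
    rw [← hback, ← hconv, hx₀, hm_ball_translate, hrR']
  refine ⟨x₀ + a, hDconv, ?_⟩
  by_contra hnull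
  obtain ⟨D₂, hD₂, hD₂r⟩ := exists_translate D (-(x₀ + a))
  have hconv₂ : convexHull ℝ D₂.carrier = ball 0 R := by
    rw [hD₂, hm_translate, hDconv, hm_ball_translate, add_neg_cancel]
  have hnull₂ : volume (ball (0 : E 2) R \ D₂.carrier) ≠ 0 := by
    have h4 : ball (0 : E 2) R \ D₂.carrier =
        (fun x => x + -(x₀ + a)) '' (ball (x₀ + a) R \ D.carrier) := by
      rw [image_sdiff (add_left_injective _), hm_ball_translate, add_neg_cancel, hD₂]
    rw [h4, hm_vol_translate]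
    exact hnull
  obtain ⟨η, hη, h4⟩ := disc_strict D₂ hR hconv₂ hnull₂ hl
  have e : -(l * GG l / R) = α := by
    rw [hlβ]
    field_simp
  rw [e, ← neg_neg α] at h4
  have h5 := hD₂r _ _ h4
  rw [neg_neg] at h5
  have h6 := hball.trans h5
  rw [EReal.coe_le_coe_iff] at h6
  linarith

end Pool.Agent.RC
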