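import Pool.Agent.H.MP_1b807b_an.L.Defs
import Pool.Agent.H.MP_1b807b_an.C.Depth

/-! MP_1b807b_an, hull theorem, module Psi: a function which goes from `-1` to `1` inside a domain
along almost all lines of a given direction -/

set_option autoImplicit false

namespace Pool.Agent.RC

open MeasureTheory Metric Set Filter
open Pool.Agent.RG
open scoped RealInnerProductSpace Topology

/-- the coordinate `sp · θ` as a continuous linear functional -/
private noncomputable def psL (θ : ℝ) : E 2 →L[ℝ] ℝ := innerSL ℝ (ev θ)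

private theorem psL_apply (θ : ℝ) (x : E 2) : psL θ x = sp x θ := by
  rw [psL, innerSL_apply_apply, sp_eq_inner, real_inner_comm]

/-- what has to be proved for the set `S` of lines -/
private def PsiOK (B : Body) (Ω : Set (E 2)) (θ : ℝ) (S : Set ℝ) : Prop :=
  ∃ (ψ : E 2 → ℝ) (G : ℝ → ℝ), ContDiff ℝ 1 ψ ∧ ContDiff ℝ 1 G ∧ (∀ t, 0 ≤ G t ∧ G t ≤ 1) ∧
    (∀ x, |ψ x| ≤ 1 - G (sp x (θ + Real.pi / 2))) ∧ (∀ x, x ∉ Ω → fderiv ℝ ψ x (ev θ) = 0) ∧
    (∀ φ, ψ (B.y φ) * Real.cos (φ - θ) =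
      |Real.cos (φ - θ)| * (1 - G (sp (B.y φ) (θ + Real.pi / 2)))) ∧
    ∀ t ∈ S, G t = 0

private theorem ps_sp_ev (θ : ℝ) : psL (θ + Real.pi / 2) (ev θ) = 0 := by
  rw [psL_apply, sp_ev, show θ - (θ + Real.pi / 2) = -(Real.pi / 2) by ring, Real.cos_neg,
    Real.cos_pi_div_two]

private theorem ps_empty (B : Body) (Ω : Set (E 2)) (θ : ℝ) : PsiOK B Ω θ ∅ := by
  refine ⟨fun _ => 0, fun _ => 1, contDiff_const, contDiff_const, fun t => ⟨zero_le_one, le_rfl⟩,
    fun x => by simp, fun x _ => by simp, fun φ => by simp, fun t ht => absurd ht (notMem_empty _)⟩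

private theorem ps_union {B : Body} {Ω : Set (E 2)} {θ : ℝ} {S T : Set ℝ}
    (hS : PsiOK B Ω θ S) (hT : PsiOK B Ω θ T) : PsiOK B Ω θ (S ∪ T) := by
  obtain ⟨ψ, G, h1, h2, h3, h4, h5, h6, h7⟩ := hS
  obtain ⟨ψ', G', h1', h2', h3', h4', h5', h6', h7'⟩ := hT
  refine ⟨fun x => ψ x + G (psL (θ + Real.pi / 2) x) * ψ' x, fun t => G t * G' t,
    h1.add ((h2.comp (psL (θ + Real.pi / 2)).contDiff).mul h1'), h2.mul h2',
    fun t => ⟨mul_nonneg (h3 t).1 (h3' t).1, mul_le_one₀ (h3 t).2 (h3' t).1 (h3' t).2⟩,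
    fun x => ?_, fun x hx => ?_, fun φ => ?_, fun t ht => ?_⟩
  · beta_reduce
    rw [psL_apply]
    have a1 := h4 x
    have a2 := h4' x
    have a3 := h3 (sp x (θ + Real.pi / 2))
    calc |ψ x + G (sp x (θ + Real.pi / 2)) * ψ' x| ≤ |ψ x| + |G (sp x (θ + Real.pi / 2)) * ψ' x| :=
          abs_add_le _ _
      _ = |ψ x| + G (sp x (θ + Real.pi / 2)) * |ψ' x| := by rw [abs_mul, abs_of_nonneg a3.1]
      _ ≤ (1 - G (sp x (θ + Real.pi / 2))) +
          G (sp x (θ + Real.pi / 2)) * (1 - G' (sp x (θ + Real.pi / 2))) :=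
          add_le_add a1 (mul_le_mul_of_nonneg_left a2 a3.1)
      _ = _ := by ring
  · have d1 : HasFDerivAt ψ (fderiv ℝ ψ x) x := ((h1.differentiable one_ne_zero) x).hasFDerivAt
    have d2 : HasFDerivAt ψ' (fderiv ℝ ψ' x) x := ((h1'.differentiable one_ne_zero) x).hasFDerivAt
    have d3 : HasFDerivAt (fun x => G (psL (θ + Real.pi / 2) x))
        (deriv G (psL (θ + Real.pi / 2) x) • psL (θ + Real.pi / 2)) x := by
      have h := ((h2.differentiable one_ne_zero) (psL (θ + Real.pi / 2) x)).hasDerivAt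
      exact h.comp_hasFDerivAt x (psL (θ + Real.pi / 2)).hasFDerivAt
    have d4 : HasFDerivAt (fun x => ψ x + G (psL (θ + Real.pi / 2) x) * ψ' x)
        (fderiv ℝ ψ x + (G (psL (θ + Real.pi / 2) x) • fderiv ℝ ψ' x +
          ψ' x • (deriv G (psL (θ + Real.pi / 2) x) • psL (θ + Real.pi / 2)))) x :=
      d1.add (d3.mul d2)
    rw [d4.fderiv]
    simp only [ContinuousLinearMap.add_apply, ContinuousLinearMap.smul_apply, smul_eq_mul]
    rw [h5 x hx, h5' x hx, ps_sp_ev]
    ring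
  · have a1 := h6 φ
    have a2 := h6' φ
    beta_reduce
    rw [psL_apply, add_mul, a1, mul_assoc, a2]
    ring
  · rcases ht with ht | ht
    · beta_reduce
      rw [h7 t ht, zero_mul]
    · beta_reduce
      rw [h7' t ht, mul_zero]

private theorem ps_local {B : Body} {Ω : Set (E 2)} (ho : IsOpen Ω) (hΩ : Ω ⊆ B.K) {θ : ℝ}
    {x₀ : E 2} (hx₀ : x₀ ∈ Ω) : ∃ U ∈ 𝓝 (sp x₀ (θ + Real.pi / 2)), PsiOK B Ω θ U := by
  obtain ⟨r, hr, hball⟩ := Metric.isOpen_iff.1 ho x₀ hx₀
  set p₀ := sp x₀ (θ + Real.pi / 2) with hp₀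
  set s₀ := sp x₀ θ with hs₀
  let χ : ContDiffBump p₀ := ⟨r / 4, r / 2, by positivity, by linarith⟩
  have hχ1 : ∀ t, 0 ≤ χ t ∧ χ t ≤ 1 := fun t => ⟨χ.nonneg, χ.le_one⟩
  set T : ℝ → ℝ := fun s => 2 * Real.smoothTransition ((s - s₀) / (r / 2) + 1 / 2) - 1 with hT
  have hTc : ContDiff ℝ 1 T := by
    have h1 : ContDiff ℝ 1 (fun s : ℝ => (s - s₀) / (r / 2) + 1 / 2) :=
      ((contDiff_id.sub contDiff_const).div_const _).add contDiff_const
    exact (contDiff_const.mul (Real.smoothTransition.contDiff.comp h1)).sub contDiff_const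
  have hT1 : ∀ s, s₀ + r / 4 ≤ s → T s = 1 := by
    intro s hs
    have h1 : (1 : ℝ) ≤ (s - s₀) / (r / 2) + 1 / 2 := by
      have : 1 / 2 ≤ (s - s₀) / (r / 2) := by
        rw [le_div_iff₀ (by positivity)]
        linarith
      linarith
    rw [hT]
    simp only
    rw [Real.smoothTransition.one_of_one_le h1]
    norm_num
  have hT2 : ∀ s, s ≤ s₀ - r / 4 → T s = -1 := by
    intro s hs
    have h1 : (s - s₀) / (r / 2) + 1 / 2 ≤ 0 := by
      have : (s - s₀) / (r / 2) ≤ -(1 / 2) := by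
        rw [div_le_iff₀ (by positivity)]
        linarith
      linarith
    rw [hT]
    simp only
    rw [Real.smoothTransition.zero_of_nonpos h1]
    norm_num
  have hTa : ∀ s, |T s| ≤ 1 := by
    intro s
    have h1 := Real.smoothTransition.nonneg ((s - s₀) / (r / 2) + 1 / 2)
    have h2 := Real.smoothTransition.le_one ((s - s₀) / (r / 2) + 1 / 2)
    rw [hT, abs_le]
    simp only
    constructor <;> linarith
  have hdist : ∀ x : E 2, |sp x (θ + Real.pi / 2) - p₀| < r / 2 → |sp x θ - s₀| < r / 2 → x ∈ Ω := by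
    intro x h1 h2
    apply hball
    rw [mem_ball, dist_eq_norm]
    have e1 : ‖x - x₀‖ ^ 2 = (sp x θ - s₀) ^ 2 + (sp x (θ + Real.pi / 2) - p₀) ^ 2 := by
      rw [hp₀, hs₀, ← sp_sub, ← sp_sub]
      have h3 : sp (x - x₀) (θ + Real.pi / 2) = -(x - x₀) 0 * Real.sin θ + (x - x₀) 1 * Real.cos θ := by
        rw [sp, Real.cos_add_pi_div_two, Real.sin_add_pi_div_two]
        ring
      rw [h3, sp, EuclideanSpace.norm_sq_eq, Fin.sum_univ_two, Real.norm_eq_abs, Real.norm_eq_abs,
        sq_abs, sq_abs]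
      have h4 := Real.sin_sq_add_cos_sq θ
      linear_combination (-(x - x₀) 0 ^ 2 - (x - x₀) 1 ^ 2) * h4
    have h3 : (sp x θ - s₀) ^ 2 < (r / 2) ^ 2 := by
      rw [← sq_abs (sp x θ - s₀)]
      exact pow_lt_pow_left₀ h2 (abs_nonneg _) two_ne_zero
    have h4 : (sp x (θ + Real.pi / 2) - p₀) ^ 2 < (r / 2) ^ 2 := by
      rw [← sq_abs (sp x (θ + Real.pi / 2) - p₀)]
      exact pow_lt_pow_left₀ h1 (abs_nonneg _) two_ne_zero
    have h5 : ‖x - x₀‖ ^ 2 < r ^ 2 := by
      rw [e1]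
      nlinarith
    exact lt_of_pow_lt_pow_left₀ 2 hr.le h5
  refine ⟨closedBall p₀ (r / 4), closedBall_mem_nhds _ (by positivity),
    fun x => χ (psL (θ + Real.pi / 2) x) * T (psL θ x), fun t => 1 - χ t,
    (χ.contDiff.comp (psL (θ + Real.pi / 2)).contDiff).mul (hTc.comp (psL θ).contDiff),
    contDiff_const.sub χ.contDiff, fun t => ⟨by linarith [(hχ1 t).2], by linarith [(hχ1 t).1]⟩,
    fun x => ?_, fun x hx => ?_, fun φ => ?_, fun t ht => ?_⟩
  · beta_reduce
    rw [abs_mul, psL_apply, psL_apply, abs_of_nonneg (hχ1 _).1]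
    have h1 := mul_le_mul_of_nonneg_left (hTa (sp x θ)) (hχ1 (sp x (θ + Real.pi / 2))).1
    linarith
  · have d1 : HasFDerivAt (fun x => χ (psL (θ + Real.pi / 2) x))
        (deriv χ (psL (θ + Real.pi / 2) x) • psL (θ + Real.pi / 2)) x := by
      have h := (((χ.contDiff (n := 1)).differentiable one_ne_zero)
        (psL (θ + Real.pi / 2) x)).hasDerivAt
      exact h.comp_hasFDerivAt x (psL (θ + Real.pi / 2)).hasFDerivAt
    have d2 : HasFDerivAt (fun x => T (psL θ x)) (deriv T (psL θ x) • psL θ) x := by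
      have h := ((hTc.differentiable one_ne_zero) (psL θ x)).hasDerivAt
      exact h.comp_hasFDerivAt x (psL θ).hasFDerivAt
    have d4 : HasFDerivAt (fun x => χ (psL (θ + Real.pi / 2) x) * T (psL θ x))
        (χ (psL (θ + Real.pi / 2) x) • (deriv T (psL θ x) • psL θ) +
          T (psL θ x) • (deriv χ (psL (θ + Real.pi / 2) x) • psL (θ + Real.pi / 2))) x :=
      d1.mul d2
    rw [d4.fderiv]
    simp only [ContinuousLinearMap.add_apply, ContinuousLinearMap.smul_apply, smul_eq_mul]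
    rw [ps_sp_ev]
    by_cases h1 : |sp x (θ + Real.pi / 2) - p₀| < r / 2
    · have h2 : r / 2 ≤ |sp x θ - s₀| := by
        by_contra hc
        exact hx (hdist x h1 (not_le.1 hc))
      have h3 : deriv T (psL θ x) = 0 := by
        rw [psL_apply]
        rcases le_abs.1 h2 with h | h
        · have : T =ᶠ[𝓝 (sp x θ)] fun _ => (1 : ℝ) := by
            filter_upwards [lt_mem_nhds (show s₀ + r / 4 < sp x θ by linarith)] with s hs
            exact hT1 s hs.le
          rw [this.deriv_eq, deriv_const]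
        · have : T =ᶠ[𝓝 (sp x θ)] fun _ => (-1 : ℝ) := by
            filter_upwards [gt_mem_nhds (show sp x θ < s₀ - r / 4 by linarith)] with s hs
            exact hT2 s hs.le
          rw [this.deriv_eq, deriv_const]
      rw [h3]
      ring
    · have h2 : χ (psL (θ + Real.pi / 2) x) = 0 := by
        rw [psL_apply]
        apply χ.zero_of_le_dist
        rw [Real.dist_eq]
        exact not_lt.1 h1
      rw [h2]
      ring
  · beta_reduce
    rw [psL_apply, psL_apply, sub_sub_cancel]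
    by_cases h1 : |sp (B.y φ) (θ + Real.pi / 2) - p₀| < r / 2
    · -- the points of the transition square on the line of `y`
      have key : ∀ σ, |σ - s₀| < r / 2 → (sp (B.y φ) θ - σ) * Real.cos (φ - θ) ≥ 0 := by
        intro σ hσ
        obtain ⟨x, hx⟩ : ∃ x : E 2, x = B.y φ - (sp (B.y φ) θ - σ) • ev θ := ⟨_, rfl⟩
        have e1 : sp x (θ + Real.pi / 2) = sp (B.y φ) (θ + Real.pi / 2) := by
          rw [hx, sp_sub, sp_smul, ← psL_apply (θ + Real.pi / 2) (ev θ), ps_sp_ev, mul_zero,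
            sub_zero]
        have e2 : sp x θ = σ := by
          rw [hx, sp_sub, sp_smul, sp_ev, sub_self, Real.cos_zero]
          ring
        have hxK : x ∈ B.K := hΩ (hdist x (by rw [e1]; exact h1) (by rw [e2]; exact hσ))
        have h2 := (B.mem_K_iff.1 hxK) φ
        rw [hx, sp_sub, sp_smul, sp_ev, B.sp_y] at h2
        rw [← Real.cos_neg (φ - θ), neg_sub]
        linarith
      have k1 := key (s₀ + r / 4) (by rw [add_sub_cancel_left, abs_of_pos (by positivity)]; linarith)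
      have k2 := key (s₀ - r / 4) (by
        rw [sub_sub_cancel_left, abs_neg, abs_of_pos (by positivity)]; linarith)
      rcases lt_trichotomy (Real.cos (φ - θ)) 0 with h | h | h
      · have h2 : sp (B.y φ) θ ≤ s₀ - r / 4 := by
          by_contra hc
          push Not at hc
          nlinarith
        rw [hT2 _ h2, abs_of_neg h]
        ring
      · rw [h]
        simp
      · have h2 : s₀ + r / 4 ≤ sp (B.y φ) θ := by
          by_contra hc
          push Not at hc
          nlinarith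
        rw [hT1 _ h2, abs_of_pos h]
        ring
    · have h2 : χ (sp (B.y φ) (θ + Real.pi / 2)) = 0 := by
        apply χ.zero_of_le_dist
        rw [Real.dist_eq]
        exact not_lt.1 h1
      rw [h2]
      ring
  · show 1 - χ t = 0
    rw [χ.one_of_mem_closedBall ht, sub_self]

/-- A function `ψ` which, along the lines of direction `ev θ`, changes only inside the domain `Ω`
and is `±(1 - g)` at the two ends of the chords of the body, `g` small in mean. -/
theorem exists_psi (B : Body) {Ω : Set (E 2)} (ho : IsOpen Ω) (hc : IsConnected Ω)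
    (hb : Bornology.IsBounded Ω) (hΩ : Ω ⊆ B.K) (θ : ℝ) {ε : ℝ} (hε : 0 < ε) :
    ∃ (ψ : E 2 → ℝ) (g : ℝ → ℝ), ContDiff ℝ 1 ψ ∧ (∀ x, |ψ x| ≤ 1) ∧
      (∀ x, x ∉ Ω → fderiv ℝ ψ x (ev θ) = 0) ∧ Continuous g ∧ (∀ t, 0 ≤ g t ∧ g t ≤ 1) ∧
      (∀ φ, ψ (B.y φ) * Real.cos (φ - θ) =
        |Real.cos (φ - θ)| * (1 - g (sp (B.y φ) (θ + Real.pi / 2)))) ∧
      (∫ t in (-B.h (θ - Real.pi / 2))..(B.h (θ + Real.pi / 2)), g t) ≤
        (B.h (θ - Real.pi / 2) - supp Ω (θ - Real.pi / 2)) +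
        (B.h (θ + Real.pi / 2) - supp Ω (θ + Real.pi / 2)) + ε := by
  obtain ⟨R, hR⟩ := hb.subset_closedBall (0 : E 2)
  have hR' : ∀ x ∈ Ω, ‖x‖ ≤ R := fun x hx => by simpa using hR hx
  obtain ⟨x₁, hx₁⟩ := hc.nonempty
  set b := supp Ω (θ + Real.pi / 2) with hbdef
  set a := supp Ω (θ - Real.pi / 2) with hadef
  have hspm : ∀ x : E 2, sp x (θ - Real.pi / 2) = -sp x (θ + Real.pi / 2) := by
    intro x
    have := sp_pi x (θ - Real.pi / 2)
    rw [show θ - Real.pi / 2 + Real.pi = θ + Real.pi / 2 by ring] at this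
    rw [this, neg_neg]
  have hbB : b ≤ B.h (θ + Real.pi / 2) :=
    supp_le ⟨x₁, hx₁⟩ fun x hx => (B.mem_K_iff.1 (hΩ hx)) _
  have haB : a ≤ B.h (θ - Real.pi / 2) :=
    supp_le ⟨x₁, hx₁⟩ fun x hx => (B.mem_K_iff.1 (hΩ hx)) _
  -- the projection
  have hproj : ∀ t ∈ Icc (-a + ε / 2) (b - ε / 2), ∃ x ∈ Ω, sp x (θ + Real.pi / 2) = t := by
    intro t ht
    obtain ⟨x, hx, hxt⟩ : ∃ x ∈ Ω, t < sp x (θ + Real.pi / 2) := by
      by_contra hcon
      push Not at hcon
      have := supp_le (θ := θ + Real.pi / 2) ⟨x₁, hx₁⟩ hcon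
      linarith [ht.2]
    obtain ⟨y, hy, hyt⟩ : ∃ y ∈ Ω, sp y (θ + Real.pi / 2) < t := by
      by_contra hcon
      push Not at hcon
      have := supp_le (θ := θ - Real.pi / 2) (c := -t) ⟨x₁, hx₁⟩ (fun x hx => by
        rw [hspm]; linarith [hcon x hx])
      linarith [ht.1]
    have himg : IsPreconnected ((fun x => psL (θ + Real.pi / 2) x) '' Ω) :=
      hc.isPreconnected.image _ (psL (θ + Real.pi / 2)).continuous.continuousOn
    have h1 : t ∈ (fun x => psL (θ + Real.pi / 2) x) '' Ω := by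
      refine himg.Icc_subset (mem_image_of_mem _ hy) (mem_image_of_mem _ hx) ⟨?_, ?_⟩
      · simp only [psL_apply]
        exact hyt.le
      · simp only [psL_apply]
        exact hxt.le
    obtain ⟨z, hz, hzt⟩ := h1
    refine ⟨z, hz, ?_⟩
    rw [← hzt]
    exact (psL_apply _ _).symm
  have hmain : PsiOK B Ω θ (Icc (-a + ε / 2) (b - ε / 2)) := by
    refine isCompact_Icc.induction_on (p := PsiOK B Ω θ) (ps_empty B Ω θ) ?_
      (fun S T hS hT => ps_union hS hT) ?_
    · rintro S T hST ⟨ψ, G, h1, h2, h3, h4, h5, h6, h7⟩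
      exact ⟨ψ, G, h1, h2, h3, h4, h5, h6, fun t ht => h7 t (hST ht)⟩
    · intro t ht
      obtain ⟨x, hx, rfl⟩ := hproj t ht
      obtain ⟨U, hU, hOK⟩ := ps_local ho hΩ (θ := θ) hx
      exact ⟨U, mem_nhdsWithin_of_mem_nhds hU, hOK⟩
  obtain ⟨ψ, G, h1, h2, h3, h4, h5, h6, h7⟩ := hmain
  refine ⟨ψ, G, h1, fun x => (h4 x).trans (by linarith [(h3 (sp x (θ + Real.pi / 2))).1]), h5,
    h2.continuous, h3, h6, ?_⟩
  -- the integral
  set l := -B.h (θ - Real.pi / 2) with hl
  set u := B.h (θ + Real.pi / 2) with hu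
  have hlu : l ≤ u := by
    have e1 := (B.mem_K_iff.1 (hΩ hx₁)) (θ + Real.pi / 2)
    have e2 := (B.mem_K_iff.1 (hΩ hx₁)) (θ - Real.pi / 2)
    rw [hspm] at e2
    linarith
  have hGi : ∀ c d : ℝ, IntervalIntegrable G volume c d := fun c d => h2.continuous.intervalIntegrable c d
  have hle : ∀ c d : ℝ, c ≤ d → (∫ t in c..d, G t) ≤ d - c := by
    intro c d hcd
    have := intervalIntegral.integral_mono_on hcd (hGi c d)
      ((continuous_const (y := (1 : ℝ))).intervalIntegrable c d) (fun t _ => (h3 t).2)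
    rwa [intervalIntegral.integral_const, smul_eq_mul, mul_one] at this
  rcases le_total (b - ε / 2) (-a + ε / 2) with hcase | hcase
  · have := hle l u hlu
    linarith
  · have e1 : (∫ t in l..u, G t) = (∫ t in l..(-a + ε / 2), G t) +
        (∫ t in (-a + ε / 2)..(b - ε / 2), G t) + ∫ t in (b - ε / 2)..u, G t := by
      rw [intervalIntegral.integral_add_adjacent_intervals (hGi _ _) (hGi _ _),
        intervalIntegral.integral_add_adjacent_intervals (hGi _ _) (hGi _ _)]
    have e2 : (∫ t in (-a + ε / 2)..(b - ε / 2), G t) = 0 := by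
      have : (∫ t in (-a + ε / 2)..(b - ε / 2), G t) = ∫ t in (-a + ε / 2)..(b - ε / 2), (0 : ℝ) := by
        refine intervalIntegral.integral_congr fun t ht => ?_
        rw [uIcc_of_le hcase] at ht
        exact h7 t ht
      rw [this, intervalIntegral.integral_zero]
    have e3 := hle l (-a + ε / 2) (by linarith)
    have e4 := hle (b - ε / 2) u (by linarith)
    linarith

end Pool.Agent.RC
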