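import Pool.Agent.H.MP_1b807b_an.L.Dir

/-! MP_1b807b_an, hull theorem, module Whi: the weighted hull inequality -/

set_option autoImplicit false

namespace Pool.Agent.RC

open MeasureTheory Metric Set Filter
open Pool.Agent.RG
open scoped RealInnerProductSpace Topology

private theorem wh_fubini {α : Type*} [MeasurableSpace α] (ν : Measure α) [IsFiniteMeasure ν]
    {f : ℝ → α → ℝ} (hf : Measurable (Function.uncurry f)) {C : ℝ}
    (hC : ∀ᵐ x ∂ν, ∀ θ, |f θ x| ≤ C) :
    IntervalIntegrable (fun θ => ∫ x, f θ x ∂ν) volume 0 (2 * Real.pi) ∧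
    (∫ θ in (0 : ℝ)..2 * Real.pi, ∫ x, f θ x ∂ν) =
      ∫ x, (∫ θ in (0 : ℝ)..2 * Real.pi, f θ x) ∂ν := by
  have hπ : (0 : ℝ) ≤ 2 * Real.pi := by positivity
  have hfin : IsFiniteMeasure (volume.restrict (Ioc (0 : ℝ) (2 * Real.pi))) :=
    ⟨by rw [Measure.restrict_apply_univ]; exact measure_Ioc_lt_top⟩
  have hi : Integrable (Function.uncurry f)
      ((volume.restrict (Ioc (0 : ℝ) (2 * Real.pi))).prod ν) := by
    refine Integrable.of_bound (C := C) hf.aestronglyMeasurable ?_
    have h1 := (Measure.quasiMeasurePreserving_snd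
      (μ := volume.restrict (Ioc (0 : ℝ) (2 * Real.pi))) (ν := ν)).ae hC
    filter_upwards [h1] with z hz
    rw [Real.norm_eq_abs]
    exact hz z.1
  constructor
  · rw [intervalIntegrable_iff_integrableOn_Ioc_of_le hπ]
    exact hi.integral_prod_left
  · rw [intervalIntegral.integral_of_le hπ]
    simp_rw [intervalIntegral.integral_of_le hπ]
    exact integral_integral_swap hi

private theorem wh_cos : ∫ x in (-(Real.pi / 2))..(Real.pi / 2), |Real.cos x| = 2 := by
  have h1 : ∫ x in (-(Real.pi / 2))..(Real.pi / 2), |Real.cos x| =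
      ∫ x in (-(Real.pi / 2))..(Real.pi / 2), Real.cos x := by
    refine intervalIntegral.integral_congr fun x hx => ?_
    rw [uIcc_of_le (by linarith [Real.pi_pos])] at hx
    exact abs_of_nonneg (Real.cos_nonneg_of_mem_Icc hx)
  rw [h1, integral_cos, Real.sin_neg, Real.sin_pi_div_two]
  norm_num

private theorem wh_cos_two (φ : ℝ) : ∫ θ in (0 : ℝ)..2 * Real.pi, |Real.cos (θ - φ)| = 4 := by
  have hper : Function.Periodic (fun x => |Real.cos x|) Real.pi := fun x => by
    simp [Real.cos_add_pi]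
  have hi : ∀ a b : ℝ, IntervalIntegrable (fun x => |Real.cos x|) volume a b := fun a b =>
    (Real.continuous_cos.abs).intervalIntegrable a b
  have h0 : ∀ t : ℝ, ∫ x in t..t + Real.pi, |Real.cos x| = 2 := by
    intro t
    rw [hper.intervalIntegral_add_eq t (-(Real.pi / 2)), show -(Real.pi / 2) + Real.pi = Real.pi / 2 by ring,
      wh_cos]
  rw [intervalIntegral.integral_comp_sub_right (fun x => |Real.cos x|) φ, zero_sub,
    ← intervalIntegral.integral_add_adjacent_intervals (hi (-φ) (-φ + Real.pi)) (hi _ _), h0,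
    show 2 * Real.pi - φ = (-φ + Real.pi) + Real.pi by ring, h0]
  norm_num

/-- the mean of the absolute value of the component in direction `ev θ` -/
theorem integral_abs_inner_ev (a : E 2) :
    ∫ θ in (0 : ℝ)..2 * Real.pi, |⟪ev θ, a⟫| = 4 * ‖a‖ := by
  obtain ⟨φ, hφ⟩ := exists_polar a
  have h1 : ∀ θ : ℝ, |⟪ev θ, a⟫| = ‖a‖ * |Real.cos (θ - φ)| := by
    intro θ
    conv_lhs => rw [hφ]
    rw [real_inner_smul_right, abs_mul, abs_norm, ← sp_eq_inner, sp_ev]
  simp_rw [h1]
  rw [intervalIntegral.integral_const_mul, wh_cos_two, mul_comm]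

private theorem integral_abs_clm_ev (L : E 2 →L[ℝ] ℝ) :
    ∫ θ in (0 : ℝ)..2 * Real.pi, |L (ev θ)| = 4 * ‖L‖ := by
  set a : E 2 := (InnerProductSpace.toDual ℝ (E 2)).symm L with ha
  have h1 : ∀ y, L y = ⟪y, a⟫ := fun y => by
    rw [ha, real_inner_comm, InnerProductSpace.toDual_symm_apply]
  have h2 : ‖L‖ = ‖a‖ := by rw [ha, LinearIsometryEquiv.norm_map]
  simp_rw [h1]
  rw [integral_abs_inner_ev, h2]

/-- The weighted hull inequality: a domain `D` inside the body `B` whose support function is at most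
`δ` above the one of `D`. -/
theorem hull_ge (D : Domain 2) (B : Body) (h0 : ∀ t, 0 < B.h t) (hDK : D.carrier ⊆ B.K)
    {w : E 2 → ℝ} (hw : ContDiff ℝ 1 w) (hw0 : ∀ x, 0 ≤ w x) {W : ℝ} (hW : ∀ x ∈ B.K, w x ≤ W)
    {δ : ℝ} (hδ : ∀ θ, B.h θ ≤ supp D.carrier θ + δ) :
    (∫ φ in (0 : ℝ)..2 * Real.pi, w (B.y φ) * B.ρ φ) ≤
      (∫ x, w x ∂D.surface) + (∫ x in B.K \ D.carrier, ‖fderiv ℝ w x‖) +
      2 * Real.pi * W * δ := by
  have hπ := Real.pi_pos
  have hπ2 : (0 : ℝ) ≤ 2 * Real.pi := by positivity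
  have hfinS := D.isFinite
  have hmK := B.measurableSet_K
  have hmD : MeasurableSet D.carrier := D.isOpen.measurableSet
  have hcK := B.isCompact_K
  have hW0 : 0 ≤ W := (hw0 _).trans (hW _ (B.y_mem 0))
  have hcy := B.continuous_y
  have hcρ := B.continuous_ρ
  have hcw := hw.continuous
  have hcev : Continuous ev := by
    rw [continuous_iff_continuousAt]
    intro θ
    have : Continuous fun θ : ℝ => (!₂[Real.cos θ, Real.sin θ] : E 2) := by fun_prop
    exact this.continuousAt
  -- the three integrals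
  have hfinI : IsFiniteMeasure (volume.restrict (Ioc (0 : ℝ) (2 * Real.pi))) :=
    ⟨by rw [Measure.restrict_apply_univ]; exact measure_Ioc_lt_top⟩
  have hfinK : IsFiniteMeasure (volume.restrict (B.K \ D.carrier)) :=
    ⟨by
      rw [Measure.restrict_apply_univ]
      exact lt_of_le_of_lt (measure_mono sdiff_subset) hcK.measure_lt_top⟩
  -- left side
  obtain ⟨C1, hC1⟩ := (isCompact_Icc (a := (0 : ℝ)) (b := 2 * Real.pi)).exists_bound_of_continuousOn
    (f := fun φ => w (B.y φ) * B.ρ φ) ((hcw.comp hcy).mul hcρ).continuousOn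
  have F1 := wh_fubini (volume.restrict (Ioc (0 : ℝ) (2 * Real.pi)))
    (f := fun θ φ => w (B.y φ) * |Real.cos (φ - θ)| * B.ρ φ) (C := C1)
    (by
      have : Continuous (Function.uncurry fun θ φ => w (B.y φ) * |Real.cos (φ - θ)| * B.ρ φ) := by
        unfold Function.uncurry
        fun_prop
      exact this.measurable)
    (by
      filter_upwards [ae_restrict_mem measurableSet_Ioc] with φ hφ θ
      have h1 := hC1 φ ⟨hφ.1.le, hφ.2⟩
      rw [Real.norm_eq_abs] at h1
      rw [show w (B.y φ) * |Real.cos (φ - θ)| * B.ρ φ = w (B.y φ) * B.ρ φ * |Real.cos (φ - θ)| by ring,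
        abs_mul, abs_abs]
      calc |w (B.y φ) * B.ρ φ| * |Real.cos (φ - θ)| ≤ C1 * 1 :=
            mul_le_mul h1 (Real.abs_cos_le_one _) (abs_nonneg _) ((abs_nonneg _).trans h1)
        _ = C1 := mul_one _)
  have E1 : (∫ θ in (0 : ℝ)..2 * Real.pi, ∫ φ in Ioc (0 : ℝ) (2 * Real.pi),
      w (B.y φ) * |Real.cos (φ - θ)| * B.ρ φ) =
      4 * ∫ φ in (0 : ℝ)..2 * Real.pi, w (B.y φ) * B.ρ φ := by
    rw [F1.2, intervalIntegral.integral_of_le hπ2, ← integral_const_mul]
    refine integral_congr_ae (Eventually.of_forall fun φ => ?_)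
    show (∫ θ in (0 : ℝ)..2 * Real.pi, w (B.y φ) * |Real.cos (φ - θ)| * B.ρ φ) = 4 * (w (B.y φ) * B.ρ φ)
    have h1 : ∀ θ, w (B.y φ) * |Real.cos (φ - θ)| * B.ρ φ =
        w (B.y φ) * B.ρ φ * |Real.cos (θ - φ)| := by
      intro θ
      rw [← Real.cos_neg (φ - θ), neg_sub]
      ring
    simp_rw [h1]
    rw [intervalIntegral.integral_const_mul, wh_cos_two]
    ring
  -- surface
  have hsupp : ∀ᵐ x ∂D.surface, x ∈ frontier D.carrier := D.support
  have hcomp : IsCompact (closure D.carrier) := D.isBounded.isCompact_closure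
  obtain ⟨C2, hC2⟩ := hcomp.exists_bound_of_continuousOn (f := w) hw.continuous.continuousOn
  have F2 := wh_fubini D.surface (f := fun θ x => w x * |⟪ev θ, D.normal x⟫|) (C := C2)
    (by
      have h1 : Measurable fun z : ℝ × E 2 => ⟪ev z.1, D.normal z.2⟫ :=
        (hcev.measurable.comp measurable_fst).inner (D.measurable_normal.comp measurable_snd)
      exact (hcw.measurable.comp measurable_snd).mul h1.norm)
    (by
      filter_upwards [hsupp, D.norm_normal] with x hx hx' θ
      have h1 := hC2 x (frontier_subset_closure hx)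
      rw [Real.norm_eq_abs] at h1
      have h2 := abs_real_inner_le_norm (ev θ) (D.normal x)
      rw [norm_ev, hx', mul_one] at h2
      rw [abs_mul, abs_abs]
      calc |w x| * |⟪ev θ, D.normal x⟫| ≤ C2 * 1 :=
            mul_le_mul h1 h2 (abs_nonneg _) ((abs_nonneg _).trans h1)
        _ = C2 := mul_one _)
  have E2 : (∫ θ in (0 : ℝ)..2 * Real.pi, ∫ x, w x * |⟪ev θ, D.normal x⟫| ∂D.surface) =
      4 * ∫ x, w x ∂D.surface := by
    rw [F2.2, ← integral_const_mul]
    refine integral_congr_ae ?_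
    filter_upwards [D.norm_normal] with x hx
    show (∫ θ in (0 : ℝ)..2 * Real.pi, w x * |⟪ev θ, D.normal x⟫|) = 4 * w x
    rw [intervalIntegral.integral_const_mul, integral_abs_inner_ev, hx]
    ring
  -- volume
  have hcd : Continuous (fderiv ℝ w) := hw.continuous_fderiv one_ne_zero
  obtain ⟨C3, hC3⟩ := hcK.exists_bound_of_continuousOn (f := fderiv ℝ w) hcd.continuousOn
  have F3 := wh_fubini (volume.restrict (B.K \ D.carrier))
    (f := fun θ x => |fderiv ℝ w x (ev θ)|) (C := C3)
    (by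
      have : Continuous (Function.uncurry fun (θ : ℝ) (x : E 2) => |fderiv ℝ w x (ev θ)|) :=
        ((hcd.comp continuous_snd).clm_apply (hcev.comp continuous_fst)).abs
      exact this.measurable)
    (by
      filter_upwards [ae_restrict_mem (hmK.diff hmD)] with x hx θ
      rw [abs_abs, ← Real.norm_eq_abs]
      have h1 := (fderiv ℝ w x).le_opNorm (ev θ)
      rw [norm_ev, mul_one] at h1
      exact h1.trans (hC3 x hx.1))
  have E3 : (∫ θ in (0 : ℝ)..2 * Real.pi, ∫ x in B.K \ D.carrier, |fderiv ℝ w x (ev θ)|) =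
      4 * ∫ x in B.K \ D.carrier, ‖fderiv ℝ w x‖ := by
    rw [F3.2, ← integral_const_mul]
    refine integral_congr_ae (Eventually.of_forall fun x => ?_)
    exact integral_abs_clm_ev _
  -- integrate the directional inequality
  have key : ∀ θ : ℝ, (∫ φ in Ioc (0 : ℝ) (2 * Real.pi), w (B.y φ) * |Real.cos (φ - θ)| * B.ρ φ) ≤
      (∫ x, w x * |⟪ev θ, D.normal x⟫| ∂D.surface) +
      (∫ x in B.K \ D.carrier, |fderiv ℝ w x (ev θ)|) + 4 * W * δ := by
    intro θ
    have h1 := hull_dir D B h0 hDK hw hw0 hW θ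
    rw [intervalIntegral.integral_of_le hπ2] at h1
    have h2 := hδ (θ - Real.pi / 2)
    have h3 := hδ (θ + Real.pi / 2)
    have h4 : 2 * W * ((B.h (θ - Real.pi / 2) - supp D.carrier (θ - Real.pi / 2)) +
        (B.h (θ + Real.pi / 2) - supp D.carrier (θ + Real.pi / 2))) ≤ 2 * W * (δ + δ) := by
      refine mul_le_mul_of_nonneg_left ?_ (by positivity)
      linarith
    linarith
  have h5 := intervalIntegral.integral_mono_on (μ := volume) hπ2 F1.1
    ((F2.1.add F3.1).add (intervalIntegrable_const (c := 4 * W * δ))) (fun θ _ => key θ)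
  rw [E1, intervalIntegral.integral_add (F2.1.add F3.1) intervalIntegrable_const,
    intervalIntegral.integral_add F2.1 F3.1, E2, E3, intervalIntegral.integral_const, smul_eq_mul]
    at h5
  linarith

end Pool.Agent.RC
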